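import Pool.Agent.Lib.MP_2794d1_ag.AC.Defs

/-!
# Definitions for the count with an exponent independent of the variation

Monomials, the Hilbert function of the rational closure of the period curve, words in the generators,
and the Shimura alternative including dominance.
-/

namespace MP2794d1

open Matrix Complex Filter Topology

/-- The generic Mumford-Tate Lie algebra `m` is of Hodge type `(-1,1), (0,0), (1,-1)` at every
point, its part of type `(-1,1)` is at most one dimensional, and it vanishes if the period map is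
constant: the generic Hodge datum is a Shimura datum of dimension at most one, dominated by the
period map. -/
structure IsShimuraCurve {n : ℕ} (V : PolVHS n) : Prop where
  /-- `genericMT V` does contain the Hodge gradings (after extension of scalars) -/
  grading : ∀ z : ℂ, 0 < z.im → ∃ μ, IsGrading V z μ ∧
    μ ∈ cx (genericMT V : Set (Matrix (Fin n) (Fin n) ℚ))
  /-- `genericMT V` is a Lie algebra -/
  lie : IsLie (genericMT V)
  /-- it is of type `(-1,1), (0,0), (1,-1)` -/
  sv1 : ∀ z : ℂ, 0 < z.im → ∀ X ∈ genericMT V, ∀ p, ∀ x ∈ V.F p z, (cm X) *ᵥ x ∈ V.F (p - 1) z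
  /-- any two of its elements are linearly dependent modulo `F^0`: its part of type `(-1,1)` has
  dimension at most one -/
  dim : ∀ z : ℂ, 0 < z.im → ∀ X ∈ genericMT V, ∀ Y ∈ genericMT V, ∃ a b : ℂ, (a ≠ 0 ∨ b ≠ 0) ∧
    ∀ p, ∀ x ∈ V.F p z, (a • cm X + b • cm Y) *ᵥ x ∈ V.F p z
  /-- if the period map is constant then this part vanishes -/
  dom : (∀ z w : ℂ, 0 < z.im → 0 < w.im → ∀ p, V.F p z = V.F p w) →
    ∀ z : ℂ, 0 < z.im → ∀ X ∈ genericMT V, ∀ p, ∀ x ∈ V.F p z, (cm X) *ᵥ x ∈ V.F p z

namespace AE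

open MP2794d1.PC MP2794d1.AC

/-- the vectors of the lines over the upper half plane -/
def LV {n : ℕ} (V : PolVHS n) : Set (Ix V → ℂ) := {v | ∃ z : ℂ, 0 < z.im ∧ PLV V z v}

/-- the monomial of a word, as a function on the set `L` -/
noncomputable def monL {ι : Type} (L : Set (ι → ℂ)) (d : ℕ) (f : Fin d → ι) : L → ℂ :=
  fun v => ∏ a, (v : ι → ℂ) (f a)

/-- the dimension over `ℚ` of the space of rational forms of degree `d`, as functions on `L` -/
noncomputable def Hd {ι : Type} (L : Set (ι → ℂ)) (d : ℕ) : ℕ :=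
  Module.finrank ℚ (Submodule.span ℚ (Set.range (monL L d)))

/-- no rational relation between the coordinates `α 0, α 1, α 2` of the vectors in `L` -/
def NoRel {ι : Type} (L : Set (ι → ℂ)) (α : Fin 3 → ι) : Prop :=
  ∀ k : ℕ, 1 ≤ k → ∀ c : Fin (k + 1) → Fin (k + 1) → ℤ, (∃ i j, c i j ≠ 0) →
    ∃ v ∈ L, hp k c (v ∘ α) ≠ 0

/-- products of `l` elements of `gen`, their inverses, and `1` -/
def Wg {Γ : Type} [Group Γ] (gen : Set Γ) : ℕ → Set Γ
  | 0 => {1}
  | l + 1 => {h | ∃ g ∈ Wg gen l, ∃ s, (s = 1 ∨ s ∈ gen ∨ s⁻¹ ∈ gen) ∧ h = g * s}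

end AE

end MP2794d1
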