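import Pool.Agent.Lib.MP_2794d1_ag.AE.Defs

/-!
E01: the Hilbert function. `Hd_succ`: for `i : ι` let `m_i : (L → ℂ) →ₗ[ℚ] (L → ℂ)`, `(m_i g) v = v i * g v`. A word of length `d + 1` is
`Fin.cons i f`, its monomial is `m_i (mon f)` (`Fin.prod_univ_succ`), so the span in degree `d + 1` is contained in
`⨆ i, (span in degree d).map m_i`, of dimension `≤ ∑ i, Hd L d` (finite sup of subspaces: `Submodule.finrank_iSup_le`-type lemma, or
induction with `Submodule.finrank_add_le_finrank_add_finrank`; `finrank_map_le`; everything is finite dimensional as a span of a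
finite set). `Hd_le`: a span of `card (Fin d → ι) = card ι ^ d` elements (`finrank_range_le_card`, `Fintype.card_fun`,
`Fintype.card_fin`). `Hd_lower`: for `i, j : Fin (k + 1)` the function `v ↦ v (α 0) ^ i * v (α 1) ^ j * v (α 2) ^ (2 k - i - j)` on `L` is the
monomial of a word of length `2 k` (`i + j ≤ 2 k`: `J t = 0` for `t < i`, `1` for `i ≤ t < i + j`, `2` otherwise); these `(k + 1) ^ 2`
functions are linearly independent over `ℚ` (clear denominators: a rational relation gives an integral relation, which is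
`hp k c (v ∘ α) = 0` on `L`; `LinearIndependent.iff_fractionRing`, or `linearIndependent_iff'` with a common denominator), so their
number is at most the dimension (`LinearIndependent.fintype_card_le_finrank` in the span). For `k = 0`: `1 ≤ Hd L 0` because `L` is not empty
(`NoRel` with `k = 1`) and the monomial of the empty word is the constant `1`.
-/

namespace MP2794d1.AE

open Matrix Complex Filter Topology MP2794d1.PC MP2794d1.AC

variable {ι : Type} [Fintype ι]

/-- multiplication by a coordinate -/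
noncomputable def E01_m (L : Set (ι → ℂ)) (i : ι) : (L → ℂ) →ₗ[ℚ] (L → ℂ) where
  toFun g := fun v => (v : ι → ℂ) i * g v
  map_add' g h := by
    funext v
    simp only [Pi.add_apply]
    ring
  map_smul' c g := by
    funext v
    simp only [Pi.smul_apply, RingHom.id_apply]
    rw [Algebra.smul_def, Algebra.smul_def]
    ring

theorem E01_fin (L : Set (ι → ℂ)) (d : ℕ) :
    Module.Finite ℚ (Submodule.span ℚ (Set.range (monL L d))) :=
  Module.Finite.span_of_finite ℚ (Set.finite_range _)

theorem E01_iSup {M : Type} [AddCommGroup M] [Module ℚ M] {κ : Type} [DecidableEq κ]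
    (s : Finset κ) (E : κ → Submodule ℚ M) (hE : ∀ i, Module.Finite ℚ (E i)) (n : ℕ)
    (h : ∀ i, Module.finrank ℚ (E i) ≤ n) :
    Module.Finite ℚ (s.sup E : Submodule ℚ M) ∧
      Module.finrank ℚ (s.sup E : Submodule ℚ M) ≤ s.card * n := by
  induction s using Finset.induction_on with
  | empty =>
    rw [Finset.sup_empty]
    refine ⟨inferInstance, ?_⟩
    simp
  | insert a s ha ih =>
    obtain ⟨h1, h2⟩ := ih
    rw [Finset.sup_insert, Finset.card_insert_of_notMem ha]
    have := hE a
    refine ⟨inferInstance, ?_⟩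
    have h3 := Submodule.finrank_add_le_finrank_add_finrank (E a) (s.sup E)
    have h4 := h a
    calc Module.finrank ℚ (E a ⊔ s.sup E : Submodule ℚ M)
        ≤ Module.finrank ℚ (E a) + Module.finrank ℚ (s.sup E : Submodule ℚ M) := h3
      _ ≤ n + s.card * n := by omega
      _ = (s.card + 1) * n := by ring

theorem Hd_succ (L : Set (ι → ℂ)) (d : ℕ) : Hd L (d + 1) ≤ Fintype.card ι * Hd L d := by
  classical
  have hf := E01_fin L d
  obtain ⟨h1, h2⟩ := E01_iSup (Finset.univ : Finset ι)
    (fun i => (Submodule.span ℚ (Set.range (monL L d))).map (E01_m L i))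
    (fun i => inferInstance) (Hd L d) (fun i => Submodule.finrank_map_le _ _)
  rw [Finset.card_univ] at h2
  refine le_trans ?_ h2
  unfold Hd
  refine Submodule.finrank_mono ?_
  rw [Submodule.span_le]
  rintro _ ⟨f, rfl⟩
  have h3 : monL L (d + 1) f = E01_m L (f 0) (monL L d (fun a => f a.succ)) := by
    funext v
    show ∏ a, (v : ι → ℂ) (f a) = (v : ι → ℂ) (f 0) * ∏ a : Fin d, (v : ι → ℂ) (f a.succ)
    rw [Fin.prod_univ_succ]
  rw [h3]
  have h4 : (Submodule.span ℚ (Set.range (monL L d))).map (E01_m L (f 0)) ≤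
      Finset.univ.sup fun i => (Submodule.span ℚ (Set.range (monL L d))).map (E01_m L i) :=
    Finset.le_sup (f := fun i => (Submodule.span ℚ (Set.range (monL L d))).map (E01_m L i))
      (Finset.mem_univ (f 0))
  exact h4 (Submodule.mem_map_of_mem (Submodule.subset_span ⟨_, rfl⟩))

theorem Hd_le (L : Set (ι → ℂ)) (d : ℕ) : Hd L d ≤ Fintype.card ι ^ d := by
  classical
  unfold Hd
  have h := finrank_range_le_card (R := ℚ) (monL L d)
  rwa [Fintype.card_fun, Fintype.card_fin] at h

/-- the index `J` of the monomial `x 0 ^ i * x 1 ^ j * x 2 ^ (...)` -/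
def E01_J (i j : ℕ) (t : ℕ) : Fin 3 := if t < i then 0 else if t < i + j then 1 else 2

theorem E01_prod (k i j : ℕ) (hi : i ≤ k) (hj : j ≤ k) (x : Fin 3 → ℂ) :
    ∏ t : Fin (2 * k), x (E01_J i j (t : ℕ)) = x 0 ^ i * x 1 ^ j * x 2 ^ (2 * k - i - j) := by
  rw [Fin.prod_univ_eq_prod_range (fun t => x (E01_J i j t)) (2 * k)]
  have h1 : 2 * k = i + j + (2 * k - i - j) := by omega
  rw [h1, Finset.prod_range_add, Finset.prod_range_add]
  have h2 : ∏ t ∈ Finset.range i, x (E01_J i j t) = x 0 ^ i := by
    rw [Finset.prod_congr rfl (g := fun _ => x 0), Finset.prod_const, Finset.card_range]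
    intro t ht
    have := Finset.mem_range.1 ht
    unfold E01_J
    rw [if_pos this]
  have h3 : ∏ t ∈ Finset.range j, x (E01_J i j (i + t)) = x 1 ^ j := by
    rw [Finset.prod_congr rfl (g := fun _ => x 1), Finset.prod_const, Finset.card_range]
    intro t ht
    have := Finset.mem_range.1 ht
    unfold E01_J
    rw [if_neg (by omega), if_pos (by omega)]
  have h4 : ∏ t ∈ Finset.range (2 * k - i - j), x (E01_J i j (i + j + t)) =
      x 2 ^ (2 * k - i - j) := by
    rw [Finset.prod_congr rfl (g := fun _ => x 2), Finset.prod_const, Finset.card_range]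
    intro t _
    unfold E01_J
    rw [if_neg (by omega), if_neg (by omega)]
  rw [h2, h3, h4]
  congr 2
  omega

theorem Hd_lower (L : Set (ι → ℂ)) (α : Fin 3 → ι) (hα : NoRel L α) (k : ℕ) :
    (k + 1) ^ 2 ≤ Hd L (2 * k) := by
  classical
  have hfin := E01_fin L (2 * k)
  rcases Nat.eq_zero_or_pos k with hk | hk
  · subst hk
    obtain ⟨v, hv, -⟩ := hα 1 le_rfl (fun _ _ => 1) ⟨0, 0, one_ne_zero⟩
    have h1 : (0 : ℕ) < Hd L (2 * 0) := by
      unfold Hd
      rw [Module.finrank_pos_iff_exists_ne_zero]
      refine ⟨⟨monL L (2 * 0) Fin.elim0, Submodule.subset_span ⟨_, rfl⟩⟩, fun h => ?_⟩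
      have h2 := congrFun (congrArg Subtype.val h) ⟨v, hv⟩
      have h3 : monL L (2 * 0) Fin.elim0 ⟨v, hv⟩ = 1 := by
        unfold monL
        exact Fin.prod_univ_zero _
      have h4 : monL L (2 * 0) Fin.elim0 ⟨v, hv⟩ = 0 := h2
      rw [h3] at h4
      exact one_ne_zero h4
    omega
  · -- the independent functions
    let b : Fin (k + 1) × Fin (k + 1) → Submodule.span ℚ (Set.range (monL L (2 * k))) := fun p =>
      ⟨monL L (2 * k) (fun t => α (E01_J p.1 p.2 t)), Submodule.subset_span ⟨_, rfl⟩⟩
    have hb : LinearIndependent ℚ b := by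
      rw [Fintype.linearIndependent_iff]
      intro g hg
      by_contra hne
      push Not at hne
      obtain ⟨p₀, hp₀⟩ := hne
      -- a common denominator
      obtain ⟨N, hN⟩ := IsLocalization.exist_integer_multiples_of_finset (nonZeroDivisors ℤ)
        (Finset.univ.image g)
      have hN0 : ((N : ℤ) : ℚ) ≠ 0 := by
        have := nonZeroDivisors.coe_ne_zero N
        exact_mod_cast this
      have h1 : ∀ p, ∃ c : ℤ, (c : ℚ) = ((N : ℤ) : ℚ) * g p := by
        intro p
        obtain ⟨c, hc⟩ := hN (g p) (Finset.mem_image_of_mem _ (Finset.mem_univ p))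
        refine ⟨c, ?_⟩
        have h2 : (algebraMap ℤ ℚ) c = (N : ℤ) • g p := hc
        rw [zsmul_eq_mul] at h2
        exact h2
      choose c hc using h1
      obtain ⟨v, hv, hv2⟩ := hα k hk (fun i j => c (i, j)) ⟨p₀.1, p₀.2, by
        intro h0
        have h2 := hc p₀
        have h3 : c p₀ = 0 := h0
        rw [h3, Int.cast_zero] at h2
        exact hp₀ ((mul_eq_zero.1 h2.symm).resolve_left hN0)⟩
      apply hv2
      have h4 := congrFun (congrArg Subtype.val hg) ⟨v, hv⟩
      have h5 : ∑ p, (g p : ℂ) * ∏ t : Fin (2 * k), (v ∘ α) (E01_J p.1 p.2 t) = 0 := by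
        have h6 : (((∑ p, g p • b p : Submodule.span ℚ (Set.range (monL L (2 * k)))) : L → ℂ))
            ⟨v, hv⟩ = ∑ p, (g p : ℂ) * ∏ t : Fin (2 * k), (v ∘ α) (E01_J p.1 p.2 t) := by
          rw [Submodule.coe_sum, Finset.sum_apply]
          refine Finset.sum_congr rfl fun p _ => ?_
          rw [Submodule.coe_smul, Pi.smul_apply, Algebra.smul_def]
          rfl
        rw [← h6]
        exact h4
      have h7 : ∀ p : Fin (k + 1) × Fin (k + 1), (c p : ℂ) = ((N : ℤ) : ℂ) * (g p : ℂ) := by
        intro p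
        have := congrArg (fun q : ℚ => (q : ℂ)) (hc p)
        push_cast at this
        exact this
      unfold hp
      rw [← Finset.univ_product_univ] at h5
      rw [Finset.sum_product] at h5
      calc ∑ i : Fin (k + 1), ∑ j : Fin (k + 1), (c (i, j) : ℂ) * ((v ∘ α) 0 ^ (i : ℕ) *
            (v ∘ α) 1 ^ (j : ℕ) * (v ∘ α) 2 ^ (2 * k - (i : ℕ) - (j : ℕ)))
          = ((N : ℤ) : ℂ) * ∑ i : Fin (k + 1), ∑ j : Fin (k + 1), (g (i, j) : ℂ) *
            ∏ t : Fin (2 * k), (v ∘ α) (E01_J i j t) := by
            rw [Finset.mul_sum]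
            refine Finset.sum_congr rfl fun i _ => ?_
            rw [Finset.mul_sum]
            refine Finset.sum_congr rfl fun j _ => ?_
            rw [h7, E01_prod k i j (by omega) (by omega) (v ∘ α)]
            ring
        _ = 0 := by rw [h5, mul_zero]
    have h8 := hb.fintype_card_le_finrank
    rw [Fintype.card_prod, Fintype.card_fin] at h8
    unfold Hd
    calc (k + 1) ^ 2 = (k + 1) * (k + 1) := by ring
      _ ≤ _ := h8

end MP2794d1.AE
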