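import Pool.Agent.Lib.MP_2794d1_ag.AE.Defs

/-!
E02: a basis of monomials. `exists_linearIndependent`-type lemmas for the finite family `monL L d` give words whose monomials are
linearly independent over `ℚ` and span the span: e.g. `Submodule.exists_fun_fin_finrank_span_eq` gives a function
`Fin (finrank) → range (monL L d)` which is linearly independent and spans; choose for every value a word (an injective choice, as the
values are distinct): `T`, with `T.card = Hd L d`. An integral combination `∑ p f * mon f`, `p` supported on `T`, vanishing on `L`, is a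
rational relation between independent functions, so `p = 0`. `mf d (fun I => (p I : ℂ)) v = ∑_I p I * ∏_a v (I a)`.
-/

namespace MP2794d1.AE

open Matrix Complex Filter Topology MP2794d1.PC MP2794d1.AC

theorem exists_basis {ι : Type} [Fintype ι] (L : Set (ι → ℂ)) (d : ℕ) :
    ∃ T : Finset (Fin d → ι), T.card = Hd L d ∧ ∀ p : (Fin d → ι) → ℤ, (∀ f, f ∉ T → p f = 0) →
      p ≠ 0 → ∃ v ∈ L, mf d (fun I => (p I : ℂ)) v ≠ 0 := by
  classical
  have hfin : Module.Finite ℚ (Submodule.span ℚ (Set.range (monL L d))) :=
    FiniteDimensional.span_of_finite ℚ (Set.finite_range _)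
  obtain ⟨b, hb1, hb2, hb3⟩ := Submodule.exists_fun_fin_finrank_span_eq ℚ
    (Set.range (monL L d))
  choose w hw using hb1
  have hinj : Function.Injective w := by
    intro i j h
    apply hb3.injective
    rw [← hw i, ← hw j, h]
  refine ⟨Finset.univ.image w, ?_, ?_⟩
  · rw [Finset.card_image_of_injective _ hinj, Finset.card_univ, Fintype.card_fin]
    rfl
  · intro p hp hne
    by_contra hcon
    push Not at hcon
    apply hne
    have hsum : ∑ i, (p (w i) : ℚ) • b i = 0 := by
      funext v
      have h1 := hcon v.1 v.2
      unfold mf at h1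
      have h2 : ∑ I : Fin d → ι, (p I : ℂ) * ∏ i, v.1 (I i) =
          ∑ I ∈ Finset.univ.image w, (p I : ℂ) * ∏ i, v.1 (I i) := by
        symm
        apply Finset.sum_subset (Finset.subset_univ _)
        intro I _ hI
        rw [hp I hI]
        simp
      rw [h2, Finset.sum_image (fun a _ b _ h => hinj h)] at h1
      rw [Finset.sum_apply, Pi.zero_apply, ← h1]
      refine Finset.sum_congr rfl fun i _ => ?_
      rw [← hw i]
      simp [monL, Algebra.smul_def]
    have h3 := (linearIndependent_iff'.1 hb3) Finset.univ (fun i => (p (w i) : ℚ)) hsum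
    funext f
    by_cases hf : f ∈ Finset.univ.image w
    · obtain ⟨i, -, rfl⟩ := Finset.mem_image.1 hf
      exact_mod_cast h3 i (Finset.mem_univ i)
    · exact hp f hf

end MP2794d1.AE
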