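import Pool.Agent.Lib.MP_2794d1_ag.AE.Defs
import Pool.Agent.Lib.MP_2794d1_ag.PC.CB3

/-!
E03: Siegel's lemma for forms supported on a set `T` of words (as `siegel_hp`, PC/CB3). If `#S * card κ ^ 2 = 0` then `S` is empty
or `κ` is empty (then `IntRep` is impossible, `w ≠ 0` for `w : κ → ℂ`), so `S` is empty: take `p` = indicator of an element of
`T`, `∑ |p| = 1 ≤ #T * (#T * B ^ d)`. Otherwise choose `X s, w s` for `s ∈ S`; for a word `f` the matrix
`(List.ofFn fun a => X s (f a)).prod` (ordered product) has `w s` as eigenvector with eigenvalue `∏_a v s (f a)` and rows of `ℓ¹`-norm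
at most `B ^ d` (PC.CB1 `row_mul`, induction); unknowns `t : T → ℤ`, equations indexed by `S × κ × κ`: the entries of these matrices; `CB3_siegel`
with `M = B ^ d` gives `t ≠ 0`, `|t f| ≤ #T * B ^ d`; extend by `0`; `∑ |p| ≤ #T * (#T * B ^ d)`; `∑_f p f • (product matrix) = 0` gives
`mf d p (v s) • w s = 0`, `w s ≠ 0`.
-/

namespace MP2794d1.AE

open Matrix Complex Filter Topology MP2794d1.PC MP2794d1.AC

/-- the matrix of a word -/
def E03_P {κ ι : Type} [Fintype κ] [DecidableEq κ] (X : ι → Matrix κ κ ℤ) {d : ℕ}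
    (f : Fin d → ι) : Matrix κ κ ℤ := (List.ofFn fun a => X (f a)).prod

theorem E03_zero {κ ι : Type} [Fintype κ] [DecidableEq κ] (X : ι → Matrix κ κ ℤ)
    (f : Fin 0 → ι) : E03_P X f = 1 := by
  unfold E03_P
  rw [List.ofFn_zero, List.prod_nil]

theorem E03_succ {κ ι : Type} [Fintype κ] [DecidableEq κ] (X : ι → Matrix κ κ ℤ) {d : ℕ}
    (f : Fin (d + 1) → ι) : E03_P X f = X (f 0) * E03_P X (fun a => f a.succ) := by
  unfold E03_P
  rw [List.ofFn_succ, List.prod_cons]

theorem E03_eig {κ ι : Type} [Fintype κ] [DecidableEq κ] (X : ι → Matrix κ κ ℤ) (w : κ → ℂ)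
    (v : ι → ℂ) (h : ∀ i, ic (X i) *ᵥ w = v i • w) : ∀ (d : ℕ) (f : Fin d → ι),
    ic (E03_P X f) *ᵥ w = (∏ a, v (f a)) • w := by
  intro d
  induction d with
  | zero =>
    intro f
    rw [E03_zero, ic_one, Matrix.one_mulVec, Fin.prod_univ_zero, one_smul]
  | succ d ih =>
    intro f
    rw [E03_succ, ic_mul, ← Matrix.mulVec_mulVec, ih, Matrix.mulVec_smul, h, smul_smul,
      Fin.prod_univ_succ, mul_comm]

theorem E03_row {κ ι : Type} [Fintype κ] [DecidableEq κ] (X : ι → Matrix κ κ ℤ) {B : ℝ}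
    (hB : 0 ≤ B) (hX : ∀ i a, ∑ b, |(X i a b : ℝ)| ≤ B) : ∀ (d : ℕ) (f : Fin d → ι) (a : κ),
    ∑ b, |(E03_P X f a b : ℝ)| ≤ B ^ d := by
  intro d
  induction d with
  | zero =>
    intro f a
    rw [E03_zero, pow_zero]
    have h1 : ∀ b, |((1 : Matrix κ κ ℤ) a b : ℝ)| = if a = b then (1 : ℝ) else 0 := by
      intro b
      by_cases h : a = b
      · rw [if_pos h, h, Matrix.one_apply_eq]; simp
      · rw [if_neg h, Matrix.one_apply_ne h]; simp
    simp only [h1, Finset.sum_ite_eq, Finset.mem_univ, if_true]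
    exact le_rfl
  | succ d ih =>
    intro f
    rw [E03_succ, pow_succ']
    exact row_mul _ _ (pow_nonneg hB _) (hX (f 0)) (ih _)

theorem siegel_T {κ ι σ : Type} [Fintype κ] [Fintype ι] {d : ℕ} (T : Finset (Fin d → ι))
    (hT : T.Nonempty) (S : Finset σ) (v : σ → ι → ℂ) {B : ℝ} (hB : 1 ≤ B)
    (hv : ∀ s ∈ S, IntRep κ B (v s)) (hk : 2 * (S.card * Fintype.card κ ^ 2) ≤ T.card) :
    ∃ p : (Fin d → ι) → ℤ, p ≠ 0 ∧ (∀ f, f ∉ T → p f = 0) ∧
      ∑ f, |(p f : ℝ)| ≤ T.card * (T.card * B ^ d) ∧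
      ∀ s ∈ S, mf d (fun I => (p I : ℂ)) (v s) = 0 := by
  classical
  have hB0 : (0 : ℝ) ≤ B := zero_le_one.trans hB
  have hBd : (1 : ℝ) ≤ B ^ d := one_le_pow₀ hB
  have hTc : (1 : ℝ) ≤ (T.card : ℝ) := by
    have : 1 ≤ T.card := hT.card_pos
    exact_mod_cast this
  by_cases h0 : S.card * Fintype.card κ ^ 2 = 0
  · obtain ⟨f₀, hf₀⟩ := hT
    refine ⟨fun f => if f = f₀ then 1 else 0, ?_, ?_, ?_, ?_⟩
    · intro h
      have h1 := congrFun h f₀
      simp at h1
    · intro f hf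
      have h1 : f ≠ f₀ := by
        rintro rfl
        exact hf hf₀
      exact if_neg h1
    · have h1 : ∑ f : Fin d → ι, |(((if f = f₀ then 1 else 0 : ℤ)) : ℝ)| = 1 := by
        have h2 : ∀ f : Fin d → ι, |(((if f = f₀ then 1 else 0 : ℤ)) : ℝ)| =
            if f = f₀ then (1 : ℝ) else 0 := by
          intro f
          split_ifs <;> simp
        simp only [h2, Finset.sum_ite_eq', Finset.mem_univ, if_true]
      rw [h1]
      exact one_le_mul_of_one_le_of_one_le hTc (one_le_mul_of_one_le_of_one_le hTc hBd)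
    · intro s hs
      exfalso
      have h1 : S.card ≠ 0 := Finset.card_ne_zero_of_mem hs
      have h2 : Fintype.card κ = 0 := by
        rcases Nat.mul_eq_zero.1 h0 with h3 | h3
        · exact absurd h3 h1
        · exact pow_eq_zero_iff (two_ne_zero) |>.1 h3
      obtain ⟨X, w, hw, -, -⟩ := hv s hs
      have : IsEmpty κ := Fintype.card_eq_zero_iff.1 h2
      exact hw (Subsingleton.elim _ _)
  · have hv' : ∀ s : {s // s ∈ S}, IntRep κ B (v s.1) := fun s => hv s.1 s.2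
    choose X w hw hX hr using hv'
    let 𝓐 : Matrix ({s // s ∈ S} × κ × κ) {f // f ∈ T} ℤ := Matrix.of fun p q =>
      E03_P (X p.1) q.1 p.2.1 p.2.2
    have hent : ∀ p q, |(𝓐 p q : ℝ)| ≤ B ^ d := by
      intro p q
      refine le_trans ?_ (E03_row (X p.1) hB0 (fun i a => hr p.1 i a) d q.1 p.2.1)
      exact Finset.single_le_sum (f := fun b => |(E03_P (X p.1) q.1 p.2.1 b : ℝ)|)
        (fun _ _ => abs_nonneg _) (Finset.mem_univ p.2.2)
    have hcα : Fintype.card ({s // s ∈ S} × κ × κ) = S.card * Fintype.card κ ^ 2 := by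
      rw [Fintype.card_prod, Fintype.card_prod, Fintype.card_coe, sq]
    have hcβ : Fintype.card {f // f ∈ T} = T.card := Fintype.card_coe _
    obtain ⟨t, ht, hAt, hb⟩ := CB3_siegel 𝓐 hBd hent (by rw [hcα]; omega)
      (by rw [hcα, hcβ]; exact hk)
    rw [hcβ] at hb
    set p : (Fin d → ι) → ℤ := fun f => if h : f ∈ T then t ⟨f, h⟩ else 0 with hp
    have hpT : ∀ q : {f // f ∈ T}, p q.1 = t q := by
      intro q
      rw [hp]
      simp only [dif_pos q.2]
    have hp0 : ∀ f, f ∉ T → p f = 0 := by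
      intro f hf
      rw [hp]
      simp only [dif_neg hf]
    refine ⟨p, ?_, hp0, ?_, ?_⟩
    · intro h
      apply ht
      funext q
      rw [← hpT q, h]
      rfl
    · have h1 : ∑ f, |(p f : ℝ)| = ∑ f ∈ T, |(p f : ℝ)| := by
        refine (Finset.sum_subset (Finset.subset_univ T) fun f _ hf => ?_).symm
        rw [hp0 f hf]
        simp
      rw [h1]
      have h2 : ∀ f ∈ T, |(p f : ℝ)| ≤ T.card * B ^ d := by
        intro f hf
        rw [hpT ⟨f, hf⟩]
        exact hb ⟨f, hf⟩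
      refine (Finset.sum_le_sum h2).trans (le_of_eq ?_)
      rw [Finset.sum_const, nsmul_eq_mul]
    · intro s hs
      have hmf : mf d (fun I => (p I : ℂ)) (v s) =
          ∑ q : {f // f ∈ T}, (t q : ℂ) * ∏ i, v s (q.1 i) := by
        have h1 : mf d (fun I => (p I : ℂ)) (v s) = ∑ f : Fin d → ι, (p f : ℂ) * ∏ i, v s (f i) :=
          rfl
        have h2 : ∑ f ∈ T, (p f : ℂ) * ∏ i, v s (f i) =
            ∑ f : Fin d → ι, (p f : ℂ) * ∏ i, v s (f i) := by
          refine Finset.sum_subset (Finset.subset_univ T) (fun f _ hf => ?_)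
          rw [hp0 f hf, Int.cast_zero, zero_mul]
        rw [h1, ← h2, ← Finset.sum_coe_sort T]
        refine Finset.sum_congr rfl fun q _ => ?_
        rw [hpT q]
      have hM : (∑ q : {f // f ∈ T}, t q • E03_P (X ⟨s, hs⟩) q.1 : Matrix κ κ ℤ) = 0 := by
        ext a b
        have h1 := congrFun hAt (⟨s, hs⟩, a, b)
        rw [Pi.zero_apply] at h1
        rw [Matrix.zero_apply, ← h1, Matrix.sum_apply]
        show _ = ∑ q : {f // f ∈ T}, 𝓐 (⟨s, hs⟩, a, b) q * t q
        refine Finset.sum_congr rfl fun q _ => ?_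
        rw [Matrix.smul_apply, smul_eq_mul, mul_comm]
        rfl
      have h2 : ic (∑ q : {f // f ∈ T}, t q • E03_P (X ⟨s, hs⟩) q.1 : Matrix κ κ ℤ) *ᵥ
          w ⟨s, hs⟩ = mf d (fun I => (p I : ℂ)) (v s) • w ⟨s, hs⟩ := by
        rw [hmf, CB1_ic, map_sum, Matrix.sum_mulVec, Finset.sum_smul]
        refine Finset.sum_congr rfl fun q _ => ?_
        rw [map_zsmul, ← CB1_ic]
        have h3 : (t q • ic (E03_P (X ⟨s, hs⟩) q.1) : Matrix κ κ ℂ) =
            (t q : ℂ) • ic (E03_P (X ⟨s, hs⟩) q.1) := (Int.cast_smul_eq_zsmul ℂ _ _).symm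
        rw [h3, Matrix.smul_mulVec, E03_eig (X ⟨s, hs⟩) (w ⟨s, hs⟩) (v s)
          (fun i => hX ⟨s, hs⟩ i) d q.1, smul_smul]
      rw [hM, CB1_ic, map_zero, Matrix.zero_mulVec] at h2
      rcases smul_eq_zero.1 h2.symm with h3 | h3
      · exact h3
      · exact absurd h3 (hw _)

end MP2794d1.AE
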