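import Mathlib

/-!
E04: the choice of the degree. `L = log B ≥ log 2`, `Lq = log q / log 2` (`q ≥ 1`; for `q ≤ 1` the hypotheses are contradictory:
`4 ≤ H 2 ≤ q ^ 2`). For `1 ≤ h = H d ≤ q ^ d`, `1 ≤ d`: `log (h (h B ^ d)) = 2 log h + d L ≤ 2 d log q + d L ≤ (2 Lq + 1) d L`, so
`C₁ (log (h (h B ^ d)) + d L + 1) ≤ C₆ d L` with `C₆ = C₁ (2 Lq + 2 + 1 / log 2)`. Let `K = 2 ν² (C₆ + 2 / log 2) + 1`. Take the least `d ≥ 1` with
`K d L ≤ H d`: `d = 2 k` works for `k = ⌈2 K L⌉₊ (≥ 1)`, as `(k + 1) ^ 2 ≥ k * k ≥ 2 K L k`. So `d ≤ 2 k ≤ 2 (2 K L + 1) ≤ K₂ L` with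
`K₂ = 4 K + 2 / log 2`. By minimality (`d = 1`: `H 1 ≤ q`; `d ≥ 2`: `H (d - 1) < K (d - 1) L` and `H d ≤ q H (d - 1)`), `H d ≤ q K d L + q ≤ K₃ L ^ 2`.
Let `n = H d / (2 ν²)` (natural division), `2 (n ν²) ≤ H d`, `n ≥ H d / (2 ν²) - 1 ≥ K d L / (2 ν²) - 1 > C₆ d L` (as `1 / log 2 * d L ≥ 1`).
(iii): `n ≤ H d ≤ K₃ L² ≤ (K₃ / log 2) L³`; `C₁ (log (..) + h d + d L + 1) ≤ C₆ d L + C₁ K₃ L² K₂ L ≤ C L³`; `C₁ (d + 1) ≤ 2 C₁ K₂ L ≤ C L³`. Use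
`L ^ a ≤ L ^ 3 / (log 2) ^ (3 - a)`.
-/

namespace MP2794d1.AE

/-- the logarithm of the bound for the coefficients -/
theorem E04_log {q h d : ℕ} {B : ℝ} (hd : 1 ≤ d) (hh : 1 ≤ h) (hhq : h ≤ q ^ d)
    (hB : 2 ≤ B) (hL : 1 / 2 ≤ Real.log B) :
    Real.log ((h : ℝ) * ((h : ℝ) * B ^ d)) + d * Real.log B + 1 ≤
      (4 * Real.log q + 4) * (d * Real.log B) := by
  have hB0 : 0 < B := by linarith
  have hh0 : (0 : ℝ) < h := by exact_mod_cast hh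
  have hd1 : (1 : ℝ) ≤ d := by exact_mod_cast hd
  have hQ : 0 ≤ Real.log (q : ℝ) := Real.log_natCast_nonneg q
  have e1 : Real.log ((h : ℝ) * ((h : ℝ) * B ^ d)) =
      Real.log h + (Real.log h + d * Real.log B) := by
    rw [Real.log_mul hh0.ne' (by positivity), Real.log_mul hh0.ne' (by positivity), Real.log_pow]
  have e2 : Real.log (h : ℝ) ≤ d * Real.log q := by
    have h3 : (h : ℝ) ≤ (q : ℝ) ^ d := by exact_mod_cast hhq
    have h4 := Real.log_le_log hh0 h3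
    rwa [Real.log_pow] at h4
  have e3 : (1 : ℝ) ≤ 2 * (d * Real.log B) := by nlinarith
  have e4 : d * Real.log (q : ℝ) ≤ 2 * Real.log q * (d * Real.log B) := by
    have h5 : (0 : ℝ) ≤ d * Real.log q := by positivity
    nlinarith
  rw [e1]
  linarith

/-- existence of a degree -/
theorem E04_exists (H : ℕ → ℕ) (h3 : ∀ k, (k + 1) ^ 2 ≤ H (2 * k)) {K L : ℝ} (hK : 0 < K)
    (hL : 0 < L) : ∃ d : ℕ, 1 ≤ d ∧ K * (d * L) ≤ H d ∧ (d : ℝ) ≤ 2 * (2 * K * L + 1) := by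
  obtain ⟨k, hk⟩ : ∃ k, k = ⌈2 * K * L⌉₊ := ⟨_, rfl⟩
  have hpos : 0 < 2 * K * L := by positivity
  have k1 : 2 * K * L ≤ k := by rw [hk]; exact Nat.le_ceil _
  have k2 : (k : ℝ) < 2 * K * L + 1 := by rw [hk]; exact Nat.ceil_lt_add_one hpos.le
  have k3 : (0 : ℝ) < k := by linarith
  have k4 : 0 < k := by exact_mod_cast k3
  refine ⟨2 * k, by omega, ?_, ?_⟩
  · have h4 : (((k + 1) ^ 2 : ℕ) : ℝ) ≤ (H (2 * k) : ℝ) := by exact_mod_cast h3 k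
    push_cast at h4 ⊢
    nlinarith
  · push_cast
    linarith

theorem num_choice (q ν : ℕ) (hν : 1 ≤ ν) (C₁ : ℝ) (h1 : 1 ≤ C₁) :
    ∃ C : ℝ, 0 < C ∧ ∀ H : ℕ → ℕ, (∀ d, H (d + 1) ≤ q * H d) → (∀ d, H d ≤ q ^ d) →
      (∀ k, (k + 1) ^ 2 ≤ H (2 * k)) → ∀ B : ℝ, 2 ≤ B → ∃ d n : ℕ, 1 ≤ d ∧ 1 ≤ H d ∧
        2 * (n * ν ^ 2) ≤ H d ∧
        C₁ * (Real.log ((H d : ℝ) * ((H d : ℝ) * B ^ d)) + d * Real.log B + 1) ≤ n ∧
        (n : ℝ) ≤ C * Real.log B ^ 3 ∧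
        C₁ * (Real.log ((H d : ℝ) * ((H d : ℝ) * B ^ d)) + (H d : ℝ) * d + d * Real.log B + 1) ≤
          C * Real.log B ^ 3 ∧
        C₁ * ((d : ℝ) + 1) ≤ C * Real.log B ^ 3 := by
  have hQ : 0 ≤ Real.log (q : ℝ) := Real.log_natCast_nonneg q
  obtain ⟨C₆, hC₆⟩ : ∃ C₆, C₆ = C₁ * (4 * Real.log q + 4) := ⟨_, rfl⟩
  have hC₆0 : 0 < C₆ := by rw [hC₆]; positivity
  obtain ⟨K, hK⟩ : ∃ K, K = 2 * (ν : ℝ) ^ 2 * (C₆ + 2) := ⟨_, rfl⟩
  have hν0 : (1 : ℝ) ≤ ν := by exact_mod_cast hν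
  have hK0 : 0 < K := by rw [hK]; positivity
  obtain ⟨K₂, hK₂⟩ : ∃ K₂, K₂ = 4 * K + 4 := ⟨_, rfl⟩
  have hK₂0 : 0 < K₂ := by rw [hK₂]; positivity
  obtain ⟨K₃, hK₃⟩ : ∃ K₃, K₃ = (q : ℝ) * (K * K₂ + 4) := ⟨_, rfl⟩
  have hK₃0 : 0 ≤ K₃ := by rw [hK₃]; positivity
  refine ⟨2 * K₃ + 2 * C₆ * K₂ + C₁ * K₃ * K₂ + 8 * C₁ * K₂ + 1, by positivity, ?_⟩
  intro H g1 g2 g3 B hB
  have hq : 1 ≤ q := by
    by_contra hcon
    have hq0 : q = 0 := by omega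
    have h5 := g3 1
    have h6 := g2 (2 * 1)
    rw [hq0] at h6
    norm_num at h5 h6
    omega
  obtain ⟨L, hLdef⟩ : ∃ L, L = Real.log B := ⟨_, rfl⟩
  have hL : 1 / 2 ≤ L := by
    have h5 := Real.log_two_gt_d9
    have h6 : Real.log 2 ≤ Real.log B := Real.log_le_log (by norm_num) hB
    rw [hLdef]
    linarith
  have hL0 : 0 < L := by linarith
  classical
  have hex : ∃ d : ℕ, 1 ≤ d ∧ K * (d * L) ≤ H d := by
    obtain ⟨d, d1, d2, -⟩ := E04_exists H g3 hK0 hL0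
    exact ⟨d, d1, d2⟩
  obtain ⟨d, hd⟩ : ∃ d, d = Nat.find hex := ⟨_, rfl⟩
  have hspec := Nat.find_spec hex
  rw [← hd] at hspec
  obtain ⟨d1, d2⟩ := hspec
  have hmin : ∀ e, e < d → ¬ (1 ≤ e ∧ K * (e * L) ≤ H e) := by
    intro e he
    rw [hd] at he
    exact Nat.find_min hex he
  have hd1 : (1 : ℝ) ≤ d := by exact_mod_cast d1
  have hdK : (d : ℝ) ≤ K₂ * L := by
    obtain ⟨e, e1, e2, e3⟩ := E04_exists H g3 hK0 hL0
    have h5 : d ≤ e := by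
      by_contra hcon
      exact hmin e (by omega) ⟨e1, e2⟩
    have h6 : (d : ℝ) ≤ e := by exact_mod_cast h5
    rw [hK₂]
    nlinarith
  have hdL : 1 ≤ 2 * (d * L) := by nlinarith
  have hHd1 : 1 ≤ H d := by
    have h5 : (0 : ℝ) < H d := lt_of_lt_of_le (by positivity) d2
    exact_mod_cast h5
  have hHd : (H d : ℝ) ≤ K₃ * L ^ 2 := by
    have hq0 : (1 : ℝ) ≤ q := by exact_mod_cast hq
    by_cases hd2 : d = 1
    · have h5 : (H d : ℝ) ≤ q := by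
        have h6 := g2 1
        rw [pow_one, ← hd2] at h6
        exact_mod_cast h6
      have h7 : (1 : ℝ) ≤ 4 * L ^ 2 := by nlinarith
      rw [hK₃]
      have h8 : 0 ≤ (q : ℝ) * (K * K₂) * L ^ 2 := by positivity
      nlinarith
    · obtain ⟨e, he⟩ : ∃ e, d = e + 1 := ⟨d - 1, by omega⟩
      have h5 : (H e : ℝ) < K * (e * L) := by
        by_contra hcon
        exact hmin e (by omega) ⟨by omega, not_lt.1 hcon⟩
      have h6 : (H d : ℝ) ≤ q * H e := by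
        have h7 := g1 e
        rw [← he] at h7
        exact_mod_cast h7
      have h8 : (e : ℝ) ≤ K₂ * L := by
        have h9 : (d : ℝ) = e + 1 := by rw [he]; push_cast; ring
        linarith
      have h10 : K * (e * L) ≤ K * K₂ * L ^ 2 := by
        have : (e : ℝ) * L ≤ K₂ * L * L := mul_le_mul_of_nonneg_right h8 hL0.le
        nlinarith
      have h11 : (q : ℝ) * H e ≤ q * (K * K₂ * L ^ 2) :=
        mul_le_mul_of_nonneg_left (h5.le.trans h10) (by positivity)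
      rw [hK₃]
      have h12 : (0 : ℝ) ≤ q * 4 * L ^ 2 := by positivity
      nlinarith
  obtain ⟨n, hn⟩ : ∃ n, n = H d / (2 * ν ^ 2) := ⟨_, rfl⟩
  have hlog := E04_log d1 hHd1 (g2 d) hB (by rw [← hLdef]; exact hL)
  rw [← hLdef] at hlog ⊢
  have hlog2 : C₁ * (Real.log ((H d : ℝ) * ((H d : ℝ) * B ^ d)) + d * L + 1) ≤ C₆ * (d * L) := by
    rw [hC₆, mul_assoc]
    exact mul_le_mul_of_nonneg_left hlog (by linarith)
  have hL2 : L ^ 2 ≤ 2 * L ^ 3 := by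
    have h5 : L ^ 3 = L ^ 2 * L := by ring
    have h6 : 0 < L ^ 2 := by positivity
    nlinarith
  have hL1 : L ≤ 4 * L ^ 3 := by
    have h5 : L ^ 3 = L ^ 2 * L := by ring
    have h6 : (1 : ℝ) ≤ 4 * L ^ 2 := by nlinarith
    nlinarith
  have hL30 : 0 < L ^ 3 := by positivity
  have hnH : (n : ℝ) ≤ H d := by
    have : n ≤ H d := by rw [hn]; exact Nat.div_le_self _ _
    exact_mod_cast this
  have p1 : (H d : ℝ) ≤ 2 * K₃ * L ^ 3 := by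
    have : K₃ * L ^ 2 ≤ K₃ * (2 * L ^ 3) := mul_le_mul_of_nonneg_left hL2 hK₃0
    linarith
  have p2 : C₆ * (d * L) ≤ 2 * C₆ * K₂ * L ^ 3 := by
    have h5 : (d : ℝ) * L ≤ K₂ * L * L := mul_le_mul_of_nonneg_right hdK hL0.le
    have h6 : K₂ * L * L ≤ K₂ * (2 * L ^ 3) := by
      have := mul_le_mul_of_nonneg_left hL2 hK₂0.le
      nlinarith
    have h7 := mul_le_mul_of_nonneg_left (h5.trans h6) hC₆0.le
    linarith
  have p3 : C₁ * ((H d : ℝ) * d) ≤ C₁ * K₃ * K₂ * L ^ 3 := by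
    have h5 : (H d : ℝ) * d ≤ (K₃ * L ^ 2) * (K₂ * L) :=
      mul_le_mul hHd hdK (by positivity) (by positivity)
    have h6 := mul_le_mul_of_nonneg_left h5 (by linarith : (0 : ℝ) ≤ C₁)
    nlinarith
  have p4 : C₁ * ((d : ℝ) + 1) ≤ 8 * C₁ * K₂ * L ^ 3 := by
    have h5 : (d : ℝ) + 1 ≤ 2 * (K₂ * L) := by linarith
    have h6 : K₂ * L ≤ K₂ * (4 * L ^ 3) := mul_le_mul_of_nonneg_left hL1 hK₂0.le
    have h7 := mul_le_mul_of_nonneg_left (h5.trans (mul_le_mul_of_nonneg_left h6 zero_le_two))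
      (by linarith : (0 : ℝ) ≤ C₁)
    linarith
  have n1 : 0 ≤ K₃ * L ^ 3 := by positivity
  have n2 : 0 ≤ C₆ * K₂ * L ^ 3 := by positivity
  have n3 : 0 ≤ C₁ * K₃ * K₂ * L ^ 3 := by positivity
  have n4 : 0 ≤ C₁ * K₂ * L ^ 3 := by positivity
  refine ⟨d, n, d1, hHd1, ?_, ?_, ?_, ?_, ?_⟩
  · have h5 : 2 * (n * ν ^ 2) = 2 * ν ^ 2 * n := by ring
    rw [h5, hn]
    exact Nat.mul_div_le _ _
  · refine hlog2.trans ?_
    have hpos : 0 < 2 * ν ^ 2 := by positivity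
    have h5 : H d < 2 * ν ^ 2 * (n + 1) := by
      rw [hn]
      exact Nat.lt_mul_div_succ _ hpos
    have h6 : (H d : ℝ) < 2 * (ν : ℝ) ^ 2 * (n + 1) := by exact_mod_cast h5
    have h7 : 2 * (ν : ℝ) ^ 2 * ((C₆ + 2) * (d * L)) < 2 * (ν : ℝ) ^ 2 * (n + 1) := by
      refine lt_of_le_of_lt ?_ h6
      refine le_trans (le_of_eq ?_) d2
      rw [hK]
      ring
    have h8 : (C₆ + 2) * (d * L) < n + 1 := lt_of_mul_lt_mul_left h7 (by positivity)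
    nlinarith
  · nlinarith
  · have h5 : C₁ * (Real.log ((H d : ℝ) * ((H d : ℝ) * B ^ d)) + (H d : ℝ) * d + d * L + 1) =
        C₁ * (Real.log ((H d : ℝ) * ((H d : ℝ) * B ^ d)) + d * L + 1) + C₁ * ((H d : ℝ) * d) := by
      ring
    rw [h5]
    nlinarith
  · nlinarith

end MP2794d1.AE
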