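import Pool.Agent.Lib.MP_2794d1_ag.AE.Defs
import Pool.Agent.Lib.MP_2794d1_ag.AC.D2

/-!
E06: the chain of the spaces of translates stabilises (after `Hd L d` steps). Let
`E l ⊆ (L → ℂ)` be the `ℚ`-span of the functions `v ↦ F (ic (ρ g) *ᵥ v)`, `g ∈ Wg gen l`. All of
them lie in the span of the monomials `monL L d`, of dimension `Hd L d`, the chain is increasing
and `E (l + 1) = E l` implies `E (l + 2) = E (l + 1)`. So `E l ≤ E (Hd L d)` for all `l`, and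
evaluation at `v₀ ∈ L` vanishes on all `E l`.
-/

namespace MP2794d1.AE

open Matrix Complex Filter Topology MP2794d1.PC MP2794d1.AC

/-- a translate of the form `F`, as a function on `L` -/
noncomputable def E06phi {Γ : Type} {ι : Type} [Fintype ι] (ρ : Γ → Matrix ι ι ℤ)
    (L : Set (ι → ℂ)) (F : (ι → ℂ) → ℂ) (g : Γ) : L → ℂ := fun v => F (ic (ρ g) *ᵥ (v : ι → ℂ))

/-- the span of the translates by words of length `l` -/
noncomputable def E06E {Γ : Type} [Group Γ] {ι : Type} [Fintype ι] (gen : Set Γ)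
    (ρ : Γ → Matrix ι ι ℤ) (L : Set (ι → ℂ)) (F : (ι → ℂ) → ℂ) (l : ℕ) : Submodule ℚ (L → ℂ) :=
  Submodule.span ℚ (E06phi ρ L F '' Wg gen l)

/-- the translation of functions on `L` -/
noncomputable def E06T {Γ : Type} {ι : Type} [Fintype ι] (ρ : Γ → Matrix ι ι ℤ)
    (L : Set (ι → ℂ)) (hL : ∀ g, ∀ v ∈ L, ic (ρ g) *ᵥ v ∈ L) (s : Γ) :
    (L → ℂ) →ₗ[ℚ] (L → ℂ) where
  toFun f := fun v => f ⟨ic (ρ s) *ᵥ (v : ι → ℂ), hL s v v.2⟩
  map_add' f g := by funext v; simp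
  map_smul' c f := by funext v; simp

theorem E06T_phi {Γ : Type} [Group Γ] {ι : Type} [Fintype ι] [DecidableEq ι]
    (ρ : Γ → Matrix ι ι ℤ) (hm : ∀ g h, ρ (g * h) = ρ g * ρ h)
    (L : Set (ι → ℂ)) (hL : ∀ g, ∀ v ∈ L, ic (ρ g) *ᵥ v ∈ L) (F : (ι → ℂ) → ℂ) (s g : Γ) :
    E06T ρ L hL s (E06phi ρ L F g) = E06phi ρ L F (g * s) := by
  funext v
  show F (ic (ρ g) *ᵥ (ic (ρ s) *ᵥ (v : ι → ℂ))) = F (ic (ρ (g * s)) *ᵥ (v : ι → ℂ))
  rw [hm, ic_mul, Matrix.mulVec_mulVec]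

theorem E06_mem {Γ : Type} {ι : Type} [Fintype ι] [DecidableEq ι]
    (ρ : Γ → Matrix ι ι ℤ) (L : Set (ι → ℂ)) {d : ℕ} {B : ℝ} (F : (ι → ℂ) → ℂ) (hF : IF d B F)
    (g : Γ) : E06phi ρ L F g ∈ Submodule.span ℚ (Set.range (monL L d)) := by
  have hC : ∀ i, ∑ j, |((ρ g) i j : ℝ)| ≤ ∑ i, ∑ j, |((ρ g) i j : ℝ)| := fun i =>
    Finset.single_le_sum (f := fun i => ∑ j, |((ρ g) i j : ℝ)|)
      (fun i _ => Finset.sum_nonneg fun j _ => abs_nonneg _) (Finset.mem_univ i)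
  have hC0 : (0 : ℝ) ≤ ∑ i, ∑ j, |((ρ g) i j : ℝ)| :=
    Finset.sum_nonneg fun i _ => Finset.sum_nonneg fun j _ => abs_nonneg _
  obtain ⟨p, hp, -⟩ := hF.comp (ρ g) hC0 hC
  have h1 : E06phi ρ L F g = ∑ I : Fin d → ι, (p I : ℚ) • monL L d I := by
    funext v
    rw [Finset.sum_apply]
    show F (ic (ρ g) *ᵥ (v : ι → ℂ)) = _
    refine (hp (v : ι → ℂ)).trans ?_
    unfold mf
    refine Finset.sum_congr rfl fun I _ => ?_
    show (p I : ℂ) * _ = (p I : ℚ) • (∏ a, (v : ι → ℂ) (I a))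
    rw [Rat.smul_def]
    push_cast
    rfl
  rw [h1]
  exact Submodule.sum_mem _ fun I _ => Submodule.smul_mem _ _
    (Submodule.subset_span ⟨I, rfl⟩)

theorem words_stable {Γ : Type} [Group Γ] {ι : Type} [Fintype ι] [DecidableEq ι] (gen : Set Γ)
    (ρ : Γ → Matrix ι ι ℤ) (h1 : ρ 1 = 1) (hm : ∀ g h, ρ (g * h) = ρ g * ρ h)
    (L : Set (ι → ℂ)) (hL : ∀ g, ∀ v ∈ L, ic (ρ g) *ᵥ v ∈ L)
    {d : ℕ} {B : ℝ} (F : (ι → ℂ) → ℂ) (hF : IF d B F) (v₀ : ι → ℂ) (hv₀ : v₀ ∈ L)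
    (h : ∀ l ≤ Hd L d, ∀ g ∈ Wg gen l, F (ic (ρ g) *ᵥ v₀) = 0) :
    ∀ g ∈ Subgroup.closure gen, F (ic (ρ g) *ᵥ v₀) = 0 := by
  have hfin : FiniteDimensional ℚ (Submodule.span ℚ (Set.range (monL L d))) :=
    FiniteDimensional.span_of_finite ℚ (Set.finite_range _)
  have hle : ∀ l, E06E gen ρ L F l ≤ Submodule.span ℚ (Set.range (monL L d)) := by
    intro l
    refine Submodule.span_le.2 ?_
    rintro _ ⟨g, -, rfl⟩
    exact E06_mem ρ L F hF g
  have hfinE : ∀ l, FiniteDimensional ℚ (E06E gen ρ L F l) := fun l =>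
    Submodule.finiteDimensional_of_le (hle l)
  have hmono : ∀ l, E06E gen ρ L F l ≤ E06E gen ρ L F (l + 1) := by
    intro l
    refine Submodule.span_mono (Set.image_mono ?_)
    intro g hg
    exact ⟨g, hg, 1, Or.inl rfl, (mul_one g).symm⟩
  have hT : ∀ l s, (s = 1 ∨ s ∈ gen ∨ s⁻¹ ∈ gen) →
      ∀ f ∈ E06E gen ρ L F l, E06T ρ L hL s f ∈ E06E gen ρ L F (l + 1) := by
    intro l s hs f hf
    have h2 : (E06E gen ρ L F l).map (E06T ρ L hL s) ≤ E06E gen ρ L F (l + 1) := by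
      refine (Submodule.map_span_le _ _ _).2 ?_
      rintro _ ⟨g, hg, rfl⟩
      rw [E06T_phi ρ hm L hL F s g]
      exact Submodule.subset_span ⟨g * s, ⟨g, hg, s, hs, rfl⟩, rfl⟩
    exact h2 ⟨f, hf, rfl⟩
  have hstep : ∀ l, E06E gen ρ L F (l + 1) ≤ E06E gen ρ L F l →
      E06E gen ρ L F (l + 2) ≤ E06E gen ρ L F (l + 1) := by
    intro l hl
    refine Submodule.span_le.2 ?_
    rintro _ ⟨_, ⟨g, hg, s, hs, rfl⟩, rfl⟩
    rw [← E06T_phi ρ hm L hL F s g]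
    exact hT l s hs _ (hl (Submodule.subset_span ⟨g, hg, rfl⟩))
  have hex : ∃ l ≤ Hd L d, E06E gen ρ L F (l + 1) ≤ E06E gen ρ L F l := by
    by_contra hno
    push Not at hno
    have hrank : ∀ l ≤ Hd L d + 1, l ≤ Module.finrank ℚ (E06E gen ρ L F l) := by
      intro l
      induction l with
      | zero => intro _; exact Nat.zero_le _
      | succ l ih =>
        intro hl
        have h3 := ih (by omega)
        have h4 : E06E gen ρ L F l < E06E gen ρ L F (l + 1) :=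
          lt_of_le_not_ge (hmono l) (hno l (by omega))
        have h5 : Module.finrank ℚ (E06E gen ρ L F l) <
            Module.finrank ℚ (E06E gen ρ L F (l + 1)) := by
          have := hfinE (l + 1)
          exact Submodule.finrank_lt_finrank_of_lt h4
        omega
    have h6 := hrank (Hd L d + 1) le_rfl
    have h7 : Module.finrank ℚ (E06E gen ρ L F (Hd L d + 1)) ≤ Hd L d :=
      Submodule.finrank_mono (hle _)
    omega
  obtain ⟨l, hlR, hl⟩ := hex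
  have hst : ∀ k, E06E gen ρ L F (l + k + 1) ≤ E06E gen ρ L F (l + k) := by
    intro k
    induction k with
    | zero => exact hl
    | succ k ih => exact hstep (l + k) ih
  have hall : ∀ k, E06E gen ρ L F (l + k) ≤ E06E gen ρ L F l := by
    intro k
    induction k with
    | zero => exact le_rfl
    | succ k ih => exact (hst k).trans ih
  have hmono' : ∀ a b, a ≤ b → E06E gen ρ L F a ≤ E06E gen ρ L F b := fun a b hab =>
    monotone_nat_of_le_succ hmono hab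
  have hker : E06E gen ρ L F l ≤
      LinearMap.ker (LinearMap.proj (R := ℚ) (φ := fun _ : L => ℂ) ⟨v₀, hv₀⟩) := by
    refine Submodule.span_le.2 ?_
    rintro _ ⟨g, hg, rfl⟩
    show F (ic (ρ g) *ᵥ v₀) = 0
    exact h l hlR g hg
  have hWg : ∀ g ∈ Subgroup.closure gen, ∃ k, g ∈ Wg gen k := by
    intro g hg
    induction hg using Subgroup.closure_induction_right with
    | one => exact ⟨0, rfl⟩
    | mul_right x _ y hy ih =>
      obtain ⟨k, hk⟩ := ih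
      exact ⟨k + 1, x, hk, y, Or.inr (Or.inl hy), rfl⟩
    | mul_inv_cancel x _ y hy ih =>
      obtain ⟨k, hk⟩ := ih
      exact ⟨k + 1, x, hk, y⁻¹, Or.inr (Or.inr (by rwa [inv_inv])), rfl⟩
  intro g hg
  obtain ⟨k, hk⟩ := hWg g hg
  have h8 : E06phi ρ L F g ∈ E06E gen ρ L F (l + k) :=
    hmono' k (l + k) (Nat.le_add_left k l) (Submodule.subset_span ⟨g, hk, rfl⟩)
  exact hker (hall k h8)

end MP2794d1.AE
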