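import Pool.Agent.Lib.MP_2794d1_ag.AE.E06
import Pool.Agent.Lib.MP_2794d1_ag.AC.D6

/-!
E07: a form vanishing at many CM points of a patch: its translates by the whole group generated by `gen` vanish there, and span a stable
space. Let `G` be the finite set of the elements of `gen`, their inverses and `1`, `C₁` the maximum over `g ∈ G`, `b : Fin N` of the constants of
`vanish_step` (AC/D6), `c₁ ≥ 0` with row sums of `RV V g` at most `exp c₁` for `g ∈ G`. Claim by induction on `l ≤ R = Hd (LV V) d`: for `g ∈ Wg gen l` the form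
`F ∘ RV g` is `IF d (exp (H + l c₁ d))` and vanishes on the lines over `S`. `l = 0`: `RV_one`, `ic 1 *ᵥ v = v`. Step: `g = g' * s`: `F ∘ RV g = (F ∘ RV g') ∘ RV s`
(`RV_mul`), `IF.comp` (AC/D2), and `vanish_step` for `F ∘ RV g' ∈ Gn (PLV V) d (exp (H + l c₁ d)) S` and `s ∈ G`: needs
`C₁ (H + l c₁ d + d log B + 1) ≤ #S`, true for `C = C₁ (1 + c₁)` since `l ≤ R`. E06 `words_stable` with `L = LV V` (`hL`: `PLV_equiv`), `ρ = RV V`, at every vector
`v₀` of the lines over `S`: `F ∘ RV g` vanishes on the lines over `S` for all `g ∈ closure gen`. `E = span ℂ {F ∘ RV g | g ∈ closure gen}`: contains `F` (`g = 1`);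
`Hom d` for all elements (`IF.comp`, `IF.hom'`, linear combinations); stable under `· ∘ RV s`, `s ∈ gen` or `s⁻¹ ∈ gen` (generators: `g * s`; span induction,
the map is linear); vanishing: linear combinations. (`vanish_step` is stated for `C * (H + d log B + 1) ≤ #S`.)
-/

namespace MP2794d1.AE

open Matrix Complex Filter Topology MP2794d1.PC MP2794d1.AC

/-- composition with a matrix -/
noncomputable def E07T {ι : Type} [Fintype ι] (A : Matrix ι ι ℂ) :
    ((ι → ℂ) → ℂ) →ₗ[ℂ] ((ι → ℂ) → ℂ) where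
  toFun F := fun x => F (A *ᵥ x)
  map_add' F G := by funext x; rfl
  map_smul' c F := by funext x; rfl

theorem E07_comp {n : ℕ} (V : PolVHS n) (F : (Ix V → ℂ) → ℂ) (g s : V.grp) (x : Ix V → ℂ) :
    F (ic (RV V (g * s)) *ᵥ x) = F (ic (RV V g) *ᵥ (ic (RV V s) *ᵥ x)) := by
  rw [RV_mul, ic_mul, Matrix.mulVec_mulVec]

theorem E07_one {n : ℕ} (V : PolVHS n) (F : (Ix V → ℂ) → ℂ) (x : Ix V → ℂ) :
    F (ic (RV V 1) *ᵥ x) = F x := by
  rw [RV_one, ic_one, Matrix.one_mulVec]

/-- the forms of degree `d` are a subspace -/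
def E07Hom (ι : Type) [Fintype ι] (d : ℕ) : Submodule ℂ ((ι → ℂ) → ℂ) where
  carrier := {F | Hom d F}
  add_mem' := by
    intro F G hF hG
    refine ⟨fun c v => ?_, hF.diff.add hG.diff⟩
    show F (c • v) + G (c • v) = c ^ d * (F v + G v)
    rw [hF.hom, hG.hom]
    ring
  zero_mem' := by
    refine ⟨fun c v => ?_, differentiable_const 0⟩
    show (0 : ℂ) = c ^ d * 0
    rw [mul_zero]
  smul_mem' := by
    intro a F hF
    refine ⟨fun c v => ?_, hF.diff.const_smul a⟩
    show a * F (c • v) = c ^ d * (a * F v)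
    rw [hF.hom]
    ring

/-- the functions vanishing at a point -/
def E07Van {ι : Type} (v : ι → ℂ) : Submodule ℂ ((ι → ℂ) → ℂ) where
  carrier := {F | F v = 0}
  add_mem' := by
    intro F G hF hG
    show F v + G v = 0
    rw [show F v = 0 from hF, show G v = 0 from hG, add_zero]
  zero_mem' := rfl
  smul_mem' := by
    intro a F hF
    show a * F v = 0
    rw [show F v = 0 from hF, mul_zero]

theorem exists_stable3 {n : ℕ} (V : PolVHS n) {N : ℕ} (a : Atlas V N) : ∃ C : ℝ, 0 < C ∧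
    ∀ B : ℝ, 2 ≤ B → ∀ (d : ℕ) (H : ℝ), 0 ≤ H → ∀ (b : Fin N) (S : Finset ℂ),
      (∀ z ∈ S, z ∈ a.U b ∧ ∃ v, PLV V z v ∧ IntRep (Fin n → Fin n) B v) →
      Set.InjOn (a.e b) (S : Set ℂ) →
      C * (H + (Hd (LV V) d : ℝ) * d + d * Real.log B + 1) ≤ S.card →
      ∀ F, IF d (Real.exp H) F → (∀ z ∈ S, ∀ v, PLV V z v → F v = 0) →
      ∃ E : Submodule ℂ ((Ix V → ℂ) → ℂ), F ∈ E ∧ (∀ F ∈ E, Hom d F) ∧
        (∀ g ∈ a.gen, ∀ F ∈ E, (fun x => F (ic (RV V g) *ᵥ x)) ∈ E ∧
          (fun x => F (ic (RV V g⁻¹) *ᵥ x)) ∈ E) ∧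
        ∀ F ∈ E, ∀ z ∈ S, ∀ v, PLV V z v → F v = 0 := by
  classical
  -- the finite set of letters
  obtain ⟨G, hG⟩ : ∃ G : Finset V.grp, G = insert 1 (a.gen ∪ a.gen.image (fun g => g⁻¹)) :=
    ⟨_, rfl⟩
  have hGmem : ∀ s : V.grp, (s = 1 ∨ s ∈ (a.gen : Set V.grp) ∨ s⁻¹ ∈ (a.gen : Set V.grp)) →
      s ∈ G := by
    intro s hs
    rw [hG, Finset.mem_insert, Finset.mem_union, Finset.mem_image]
    rcases hs with h | h | h
    · exact Or.inl h
    · exact Or.inr (Or.inl h)
    · exact Or.inr (Or.inr ⟨s⁻¹, h, inv_inv s⟩)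
  choose Cf hCf0 hCf using fun (b : Fin N) (g : V.grp) => vanish_step V a b g
  choose Rw hRw1 hRw using fun g : V.grp => D6_row (RV V g)
  obtain ⟨C₁, hC₁⟩ : ∃ C₁ : ℝ, C₁ = 1 + ∑ b : Fin N, ∑ g ∈ G, Cf b g := ⟨_, rfl⟩
  obtain ⟨c₁, hc₁⟩ : ∃ c₁ : ℝ, c₁ = ∑ g ∈ G, Real.log (Rw g) := ⟨_, rfl⟩
  have hc₁0 : 0 ≤ c₁ := by
    rw [hc₁]
    exact Finset.sum_nonneg fun g _ => Real.log_nonneg (hRw1 g)
  have hC₁0 : 0 < C₁ := by
    rw [hC₁]
    have : 0 ≤ ∑ b : Fin N, ∑ g ∈ G, Cf b g :=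
      Finset.sum_nonneg fun b _ => Finset.sum_nonneg fun g _ => (hCf0 b g).le
    linarith
  have hle : ∀ b, ∀ g ∈ G, Cf b g ≤ C₁ := by
    intro b g hg
    have h1 := Finset.single_le_sum (f := fun g => Cf b g)
      (fun g _ => (hCf0 b g).le) hg
    have h2 := Finset.single_le_sum (f := fun b => ∑ g ∈ G, Cf b g)
      (fun b _ => Finset.sum_nonneg fun g _ => (hCf0 b g).le) (Finset.mem_univ b)
    rw [hC₁]
    linarith
  have hrow : ∀ g ∈ G, ∀ i, ∑ j, |(RV V g i j : ℝ)| ≤ Real.exp c₁ := by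
    intro g hg i
    have h1 : Real.log (Rw g) ≤ c₁ := by
      rw [hc₁]
      exact Finset.single_le_sum (f := fun g => Real.log (Rw g))
        (fun g _ => Real.log_nonneg (hRw1 g)) hg
    have h2 : 0 < Rw g := lt_of_lt_of_le one_pos (hRw1 g)
    exact (hRw g i).trans ((Real.log_le_iff_le_exp h2).1 h1)
  refine ⟨C₁ * (1 + c₁), by positivity, ?_⟩
  intro B hB d H hH b S hS hinj hcard F hF hvan
  have hB1 : 0 ≤ Real.log B := Real.log_nonneg (by linarith)
  have hkey : ∀ l ≤ Hd (LV V) d, ∀ g ∈ Wg (a.gen : Set V.grp) l,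
      IF d (Real.exp (H + l * c₁ * d)) (fun x => F (ic (RV V g) *ᵥ x)) ∧
      ∀ z ∈ S, ∀ v, PLV V z v → F (ic (RV V g) *ᵥ v) = 0 := by
    intro l
    induction l with
    | zero =>
      intro _ g hg
      have hg1 : g = 1 := hg
      subst hg1
      have e1 : (fun x => F (ic (RV V 1) *ᵥ x)) = F := funext fun x => E07_one V F x
      refine ⟨?_, ?_⟩
      · rw [e1]
        simpa using hF
      · intro z hz v hv
        rw [E07_one V F v]
        exact hvan z hz v hv
    | succ l ih =>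
      intro hl g hg
      obtain ⟨g', hg', s, hs, rfl⟩ := hg
      obtain ⟨i1, i2⟩ := ih (by omega) g' hg'
      have hsG := hGmem s hs
      refine ⟨?_, ?_⟩
      · have h1 := i1.comp (RV V s) (Real.exp_pos c₁).le (hrow s hsG)
        have e1 : Real.exp (H + l * c₁ * d) * Real.exp c₁ ^ d =
            Real.exp (H + ((l + 1 : ℕ) : ℝ) * c₁ * d) := by
          rw [← Real.exp_nat_mul, ← Real.exp_add]
          congr 1
          push_cast
          ring
        rw [e1] at h1
        have e2 : (fun x => F (ic (RV V (g' * s)) *ᵥ x)) =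
            fun v => F (ic (RV V g') *ᵥ (ic (RV V s) *ᵥ v)) :=
          funext fun x => E07_comp V F g' s x
        rw [e2]
        exact h1
      · intro z hz v hv
        have hH' : 0 ≤ H + l * c₁ * d := by positivity
        have hc : Cf b s * (H + l * c₁ * d + d * Real.log B + 1) ≤ S.card := by
          have hlR : (l : ℝ) ≤ (Hd (LV V) d : ℝ) := by exact_mod_cast (by omega : l ≤ _)
          have g1 : Cf b s * (H + l * c₁ * d + d * Real.log B + 1) ≤
              C₁ * (H + l * c₁ * d + d * Real.log B + 1) :=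
            mul_le_mul_of_nonneg_right (hle b s hsG) (by positivity)
          have g2 : H + l * c₁ * d + d * Real.log B + 1 ≤
              (1 + c₁) * (H + (Hd (LV V) d : ℝ) * d + d * Real.log B + 1) := by
            have g3 : (l : ℝ) * c₁ * d ≤ c₁ * ((Hd (LV V) d : ℝ) * d) := by
              have g4 : (l : ℝ) * d ≤ (Hd (LV V) d : ℝ) * d :=
                mul_le_mul_of_nonneg_right hlR (by positivity)
              calc (l : ℝ) * c₁ * d = c₁ * (l * d) := by ring
                _ ≤ _ := mul_le_mul_of_nonneg_left g4 hc₁0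
            have g5 : 0 ≤ c₁ * (H + d * Real.log B + 1) := by positivity
            have g6 : 0 ≤ (Hd (LV V) d : ℝ) * d := by positivity
            nlinarith
          calc _ ≤ _ := g1
            _ ≤ C₁ * ((1 + c₁) * (H + (Hd (LV V) d : ℝ) * d + d * Real.log B + 1)) :=
              mul_le_mul_of_nonneg_left g2 hC₁0.le
            _ = C₁ * (1 + c₁) * (H + (Hd (LV V) d : ℝ) * d + d * Real.log B + 1) := by ring
            _ ≤ _ := hcard
        rw [E07_comp V F g' s v]
        exact hCf b s B hB d (H + l * c₁ * d) hH' S hS hinj hc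
          (fun x => F (ic (RV V g') *ᵥ x)) ⟨i1, i2⟩ z hz v hv
  have hL : ∀ g, ∀ v ∈ LV V, ic (RV V g) *ᵥ v ∈ LV V := by
    rintro g v ⟨z, hz, hv⟩
    exact ⟨mob g z, mob_im_pos _ _ hz, PLV_equiv V g z hz v hv⟩
  have hall : ∀ g ∈ Subgroup.closure (a.gen : Set V.grp), ∀ z ∈ S, ∀ v, PLV V z v →
      F (ic (RV V g) *ᵥ v) = 0 := by
    intro g hg z hz v hv
    have hz0 : 0 < z.im := a.frA.1 _ (a.sub b (hS z hz).1)
    exact words_stable (a.gen : Set V.grp) (RV V) (RV_one V) (RV_mul V) (LV V) hL F hF v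
      ⟨z, hz0, hv⟩ (fun l hl g' hg' => (hkey l hl g' hg').2 z hz v hv) g hg
  refine ⟨Submodule.span ℂ {F' | ∃ g ∈ Subgroup.closure (a.gen : Set V.grp),
    F' = fun x => F (ic (RV V g) *ᵥ x)}, ?_, ?_, ?_, ?_⟩
  · refine Submodule.subset_span ⟨1, Subgroup.one_mem _, ?_⟩
    exact funext fun x => (E07_one V F x).symm
  · intro F' hF'
    have h1 : Submodule.span ℂ {F' | ∃ g ∈ Subgroup.closure (a.gen : Set V.grp),
        F' = fun x => F (ic (RV V g) *ᵥ x)} ≤ E07Hom (Ix V) d := by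
      refine Submodule.span_le.2 ?_
      rintro _ ⟨g, -, rfl⟩
      exact (hF.comp (RV V g) (le_trans zero_le_one (hRw1 g)) (hRw g)).hom'
    exact h1 hF'
  · intro g hg F' hF'
    have hstab : ∀ s ∈ Subgroup.closure (a.gen : Set V.grp),
        (fun x => F' (ic (RV V s) *ᵥ x)) ∈ Submodule.span ℂ {F' | ∃ g ∈
          Subgroup.closure (a.gen : Set V.grp), F' = fun x => F (ic (RV V g) *ᵥ x)} := by
      intro s hs
      have h1 : (Submodule.span ℂ {F' | ∃ g ∈ Subgroup.closure (a.gen : Set V.grp),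
          F' = fun x => F (ic (RV V g) *ᵥ x)}).map (E07T (ic (RV V s))) ≤
          Submodule.span ℂ {F' | ∃ g ∈ Subgroup.closure (a.gen : Set V.grp),
            F' = fun x => F (ic (RV V g) *ᵥ x)} := by
        refine (Submodule.map_span_le _ _ _).2 ?_
        rintro _ ⟨g', hg', rfl⟩
        refine Submodule.subset_span ⟨g' * s, Subgroup.mul_mem _ hg' hs, ?_⟩
        exact funext fun x => (E07_comp V F g' s x).symm
      exact h1 ⟨F', hF', rfl⟩
    have hgc := Subgroup.subset_closure (G := V.grp) (k := (a.gen : Set V.grp)) hg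
    exact ⟨hstab g hgc, hstab g⁻¹ (Subgroup.inv_mem _ hgc)⟩
  · intro F' hF' z hz v hv
    have h1 : Submodule.span ℂ {F' | ∃ g ∈ Subgroup.closure (a.gen : Set V.grp),
        F' = fun x => F (ic (RV V g) *ᵥ x)} ≤ E07Van v := by
      refine Submodule.span_le.2 ?_
      rintro _ ⟨g, hg, rfl⟩
      exact hall g hg z hz v hv
    exact h1 hF'

end MP2794d1.AE
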