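import Pool.Agent.Lib.MP_2794d1_ag.AE.E01
import Pool.Agent.Lib.MP_2794d1_ag.AE.E02
import Pool.Agent.Lib.MP_2794d1_ag.AE.E03
import Pool.Agent.Lib.MP_2794d1_ag.AE.E04
import Pool.Agent.Lib.MP_2794d1_ag.AE.E05
import Pool.Agent.Lib.MP_2794d1_ag.AE.E07
import Pool.Agent.Lib.MP_2794d1_ag.AC.N3
import Pool.Agent.Lib.MP_2794d1_ag.AC.B1

/-!
E08: the count on one patch, exponent 3. `C₀` from `heights V a.A a.frA` (AC/B1; `U b ⊆ A`): for `h ≥ 2` and `z ∈ S`: `IntRep B v`, `B = C₀ h ^ C₀ ≥ 2` (or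
`+ 2`), `log B ≤ C log h`. `ν = card (Fin n → Fin n)` (if `ν = 0` there is no `IntRep`, `S = ∅`), `q = card (Ix V)`, `C₁` = the maximum of `1` and the constants of
`extrap`, `exists_stable3`, `near_max`; `C` from `num_choice q ν C₁`, `Hh = Hd (LV V)` (`Hd_succ`, `Hd_le`, `Hd_lower` for `α`). Suppose `#S > C (log B) ^ 3`. Take
`d, m` from `num_choice` (`m` is called `n` there); `S₁ ⊆ S`, `#S₁ = m` (`m ≤ C (log B)³ < #S`). `T` from `exists_basis (LV V) d`, `T.card = Hd (LV V) d ≥ 1`. Choose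
for `z ∈ S` a vector `w z` of the line with `IntRep B`. `siegel_T` for `T`, `S₁`, `w`: `p ≠ 0`, `∑ |p| ≤ Hd (Hd B ^ d) = exp Hh'`, `Hh' = log (Hd * (Hd * B ^ d)) ≥ 0`;
`F = mf d p` is `IF d (exp Hh')` and vanishes at `w z`, `z ∈ S₁`, hence on the lines over `S₁` (`LF.uniq`, `IF.hom'`). `extrap`: `F` vanishes on the lines over `S`.
`exists_stable3`: `E ∋ F`. `near_max` (AC/N3): `F` does not vanish on all lines (`exists_basis`: `v ∈ LV V`, `F v ≠ 0`), so `#S ≤ C₁ (d + 1) ≤ C (log B) ^ 3`: a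
contradiction. So `#S ≤ C (log B) ^ 3 ≤ C' (log h) ^ 3`.
-/

namespace MP2794d1.AE

open Matrix Complex Filter Topology MP2794d1.PC MP2794d1.AC

theorem E08_IF {ι : Type} [Fintype ι] {d : ℕ} {B : ℝ} (p : (Fin d → ι) → ℤ)
    (h : ∑ f, |(p f : ℝ)| ≤ B) : IF d B (fun x : ι → ℂ => mf d (fun I => (p I : ℂ)) x) :=
  ⟨p, fun _ => rfl, h⟩

theorem E08_logB (C₀ : ℕ) (hC₀ : 1 ≤ C₀) {h : ℝ} (hh : 2 ≤ h) :
    2 ≤ (C₀ : ℝ) * h ^ C₀ ∧
      Real.log ((C₀ : ℝ) * h ^ C₀) ≤ (Real.log C₀ / Real.log 2 + C₀) * Real.log h := by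
  have hC : (1 : ℝ) ≤ (C₀ : ℝ) := by exact_mod_cast hC₀
  have h1 : h ≤ h ^ C₀ := le_self_pow₀ (by linarith) (by omega)
  have hpos : 0 < h ^ C₀ := by positivity
  refine ⟨by nlinarith, ?_⟩
  rw [Real.log_mul (by positivity) (by positivity), Real.log_pow]
  have hl2 : 0 < Real.log 2 := Real.log_pos (by norm_num)
  have hl : Real.log 2 ≤ Real.log h := Real.log_le_log (by norm_num) hh
  have hC0 : 0 ≤ Real.log (C₀ : ℝ) := Real.log_nonneg hC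
  have h2 : Real.log (C₀ : ℝ) ≤ Real.log C₀ / Real.log 2 * Real.log h := by
    calc Real.log (C₀ : ℝ) = Real.log C₀ / Real.log 2 * Real.log 2 := by field_simp
      _ ≤ Real.log C₀ / Real.log 2 * Real.log h :=
        mul_le_mul_of_nonneg_left hl (by positivity)
  linarith

theorem E08_core {n : ℕ} (V : PolVHS n) {N : ℕ} (a : Atlas V N) (α : Fin 3 → Ix V)
    (hα : NoRel (LV V) α) :
    ∃ C : ℝ, 0 < C ∧ ∀ B : ℝ, 2 ≤ B → ∀ (b : Fin N) (S : Finset ℂ),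
      (∀ z ∈ S, z ∈ a.U b ∧ ∃ v, PLV V z v ∧ IntRep (Fin n → Fin n) B v) →
      Set.InjOn (a.e b) (S : Set ℂ) →
      (S.card : ℝ) ≤ C * Real.log B ^ 3 := by
  classical
  obtain ⟨Ce, hCe, he⟩ := extrap V a
  obtain ⟨Cs, hCs, hs⟩ := exists_stable3 V a
  obtain ⟨Cn, hCn, hn⟩ := near_max V a
  have hν : 1 ≤ Fintype.card (Fin n → Fin n) := Fintype.card_pos_iff.2 ⟨id⟩
  have hC₁ : (1 : ℝ) ≤ max 1 (max Ce (max Cs Cn)) := le_max_left _ _
  have hCe₁ : Ce ≤ max 1 (max Ce (max Cs Cn)) := (le_max_left _ _).trans (le_max_right _ _)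
  have hCs₁ : Cs ≤ max 1 (max Ce (max Cs Cn)) :=
    ((le_max_left _ _).trans (le_max_right _ _)).trans (le_max_right _ _)
  have hCn₁ : Cn ≤ max 1 (max Ce (max Cs Cn)) :=
    ((le_max_right _ _).trans (le_max_right _ _)).trans (le_max_right _ _)
  obtain ⟨C, hC, hnum⟩ := num_choice (Fintype.card (Ix V)) (Fintype.card (Fin n → Fin n)) hν
    (max 1 (max Ce (max Cs Cn))) hC₁
  generalize max 1 (max Ce (max Cs Cn)) = C₁ at *
  refine ⟨C, hC, fun B hB b S hS hinj => ?_⟩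
  by_contra hcon
  push Not at hcon
  obtain ⟨d, m, hd, hHd, hm, h1, h2, h3, h4⟩ := hnum (Hd (LV V)) (Hd_succ (LV V)) (Hd_le (LV V))
    (Hd_lower (LV V) α hα) B hB
  have hlB : 0 ≤ Real.log B := Real.log_nonneg (by linarith)
  have hmS : m ≤ S.card := by
    have : (m : ℝ) < S.card := lt_of_le_of_lt h2 hcon
    exact_mod_cast this.le
  obtain ⟨S₁, hS₁, hS₁c⟩ := Finset.exists_subset_card_eq hmS
  obtain ⟨T, hT, hTb⟩ := exists_basis (LV V) d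
  have hex : ∀ z, ∃ v, z ∈ S → PLV V z v ∧ IntRep (Fin n → Fin n) B v := by
    intro z
    by_cases hz : z ∈ S
    · obtain ⟨-, v, hv⟩ := hS z hz
      exact ⟨v, fun _ => hv⟩
    · exact ⟨0, fun h => absurd h hz⟩
  choose w hw using hex
  have hTne : T.Nonempty := by
    rw [← Finset.card_pos, hT]
    omega
  obtain ⟨p, hp0, hpT, hpB, hpv⟩ := siegel_T T hTne S₁ w (by linarith : (1 : ℝ) ≤ B)
    (fun s hs' => (hw s (hS₁ hs')).2) (by rw [hS₁c, hT]; exact hm)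
  rw [hT] at hpB
  have hH1 : (1 : ℝ) ≤ (Hd (LV V) d : ℝ) := by exact_mod_cast hHd
  have hB1 : (1 : ℝ) ≤ B ^ d := one_le_pow₀ (by linarith)
  have hX : (1 : ℝ) ≤ (Hd (LV V) d : ℝ) * ((Hd (LV V) d : ℝ) * B ^ d) :=
    one_le_mul_of_one_le_of_one_le hH1 (one_le_mul_of_one_le_of_one_le hH1 hB1)
  have hHh : 0 ≤ Real.log ((Hd (LV V) d : ℝ) * ((Hd (LV V) d : ℝ) * B ^ d)) := Real.log_nonneg hX
  have hexp : Real.exp (Real.log ((Hd (LV V) d : ℝ) * ((Hd (LV V) d : ℝ) * B ^ d))) =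
      (Hd (LV V) d : ℝ) * ((Hd (LV V) d : ℝ) * B ^ d) := Real.exp_log (by linarith)
  have hF : IF d (Real.exp (Real.log ((Hd (LV V) d : ℝ) * ((Hd (LV V) d : ℝ) * B ^ d))))
      (fun x : Ix V → ℂ => mf d (fun I => (p I : ℂ)) x) := by
    rw [hexp]
    exact E08_IF p hpB
  generalize Real.log ((Hd (LV V) d : ℝ) * ((Hd (LV V) d : ℝ) * B ^ d)) = Hh at *
  have hpos : ∀ z ∈ S, 0 < z.im := fun z hz => a.frA.1 _ (a.sub b (hS z hz).1)
  have hvan₁ : ∀ z ∈ S₁, ∀ v, PLV V z v →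
      (fun x : Ix V → ℂ => mf d (fun I => (p I : ℂ)) x) v = 0 := by
    intro z hz v hv
    obtain ⟨c, hc⟩ := (LF_PL V).uniq z (w z) v (hpos z (hS₁ hz)) (hw z (hS₁ hz)).1 hv
    rw [hc]
    refine ((IF.hom' hF).hom c (w z)).trans ?_
    have := hpv z hz
    show c ^ d * mf d (fun I => (p I : ℂ)) (w z) = 0
    rw [this, mul_zero]
  have hdB : (0 : ℝ) ≤ d * Real.log B := by positivity
  have hHd0 : (0 : ℝ) ≤ (Hd (LV V) d : ℝ) * d := by positivity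
  have hvan := he B hB d Hh hHh b S₁ S hS₁ hS hinj (by
    rw [hS₁c]
    refine le_trans ?_ h1
    exact mul_le_mul_of_nonneg_right hCe₁ (by linarith)) _ hF hvan₁
  obtain ⟨E, hFE, hhom, hstab, hvE⟩ := hs B hB d Hh hHh b S hS hinj (by
    refine le_trans ?_ (h3.trans hcon.le)
    exact mul_le_mul_of_nonneg_right hCs₁ (by linarith)) _ hF hvan
  have hne : ∃ F ∈ E, ∃ z : ℂ, 0 < z.im ∧ ∃ v, PLV V z v ∧ F v ≠ 0 := by
    obtain ⟨v, ⟨z, hz, hv⟩, hFv⟩ := hTb p hpT hp0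
    exact ⟨_, hFE, z, hz, v, hv, hFv⟩
  have hfin := hn d E hhom hstab hne b S (fun z hz => (hS z hz).1) hinj hvE
  have h5 : Cn * ((d : ℝ) + 1) ≤ C₁ * ((d : ℝ) + 1) :=
    mul_le_mul_of_nonneg_right hCn₁ (by positivity)
  linarith

theorem patch_count3 {n : ℕ} (V : PolVHS n) {N : ℕ} (a : Atlas V N) (α : Fin 3 → Ix V)
    (hα : NoRel (LV V) α) :
    ∃ C : ℝ, ∀ h : ℝ, 2 ≤ h → ∀ (b : Fin N) (S : Finset ℂ),
      (∀ z ∈ S, z ∈ a.U b ∧ IsCMc V z h) → Set.InjOn (a.e b) (S : Set ℂ) →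
      (S.card : ℝ) ≤ C * Real.log h ^ 3 := by
  obtain ⟨C₀, hC₀, hH⟩ := heights V a.A a.frA
  obtain ⟨C, hC, hcore⟩ := E08_core V a α hα
  refine ⟨C * (Real.log C₀ / Real.log 2 + C₀) ^ 3, fun h hh b S hS hinj => ?_⟩
  obtain ⟨hB, hlog⟩ := E08_logB C₀ hC₀ hh
  have h1 := hcore _ hB b S (fun z hz => ⟨(hS z hz).1,
    hH z (a.sub b (hS z hz).1) h (by linarith) (hS z hz).2⟩) hinj
  have h0 : 0 ≤ Real.log ((C₀ : ℝ) * h ^ C₀) := Real.log_nonneg (by linarith)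
  refine h1.trans ?_
  rw [mul_assoc, ← mul_pow]
  exact mul_le_mul_of_nonneg_left (pow_le_pow_left₀ h0 hlog 3) hC.le

end MP2794d1.AE
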