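import Pool.Agent.Lib.MP_2794d1_ag.AE.Defs
import Pool.Agent.Lib.MP_2794d1_ag.J07
import Pool.Agent.Lib.MP_2794d1_ag.L01
import Pool.Agent.Lib.MP_2794d1_ag.E05
import Pool.Agent.Lib.MP_2794d1_ag.PC.CH1
import Pool.Agent.Lib.MP_2794d1_ag.AC.G12
import Pool.Agent.Lib.MP_2794d1_ag.AC.G14

/-!
E10: dominance. `finite_order_of_const`: the filtration is constant, so `qf V z` does not depend on
`z`, and `qf V z (ρ(g) v) = qf V z v`, at `z = I`. The form `qf V I` is positive definite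
(`qf_adapted`), so the columns of the integral matrices `ρ(g)^k`, `k ∈ ℕ`, are bounded: they take
finitely many values. `dom_case`: `JV V z = JV V w`; `exists_cA` with `s = ⊥` gives a commutative
rational space `c` with `JV V z₀ ∈ cx c`, so `genericMT V ≤ c`, and `FEnd0_of_comm`.
-/

namespace MP2794d1.AE

open Matrix Complex Filter Topology MP2794d1.PC MP2794d1.AC

theorem E10_qf {n : ℕ} (V : PolVHS n)
    (h : ∀ z w : ℂ, 0 < z.im → 0 < w.im → ∀ p, V.F p z = V.F p w) {z w : ℂ} (hz : 0 < z.im)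
    (hw : 0 < w.im) (v : Fin n → ℂ) : qf V z v = qf V w v := by
  obtain ⟨S, d, hS⟩ := exists_adapted (V.phs z hz)
  have hS' : Adapted V.wt V.Q (fun p => V.F p w) S d := by
    have h1 : (fun p => V.F p w) = fun p => V.F p z := funext fun p => h w z hw hz p
    rw [h1]
    exact hS
  rw [qf_adapted V hz hS, qf_adapted V hw hS']

theorem finite_order_of_const {n : ℕ} (V : PolVHS n)
    (h : ∀ z w : ℂ, 0 < z.im → 0 < w.im → ∀ p, V.F p z = V.F p w) (g : V.grp) :
    ∃ k : ℕ, 0 < k ∧ V.rho g ^ k = 1 := by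
  have hI : 0 < (Complex.I).im := by rw [Complex.I_im]; exact one_pos
  obtain ⟨S, d, hS⟩ := exists_adapted (V.phs Complex.I hI)
  have hSi : S * S⁻¹ = 1 := Matrix.mul_nonsing_inv S hS.inv
  have hq : ∀ (g : V.grp) (v : Fin n → ℂ),
      qf V Complex.I (im (V.rho g : Matrix (Fin n) (Fin n) ℤ) *ᵥ v) = qf V Complex.I v := by
    intro g v
    rw [← qf_equiv V g hI v]
    exact E10_qf V h hI (mob_im_pos _ _ hI) _
  have hb : ∀ (v : Fin n → ℂ) (i : Fin n),
      ‖v i‖ ≤ ∑ a, ‖S i a‖ * Real.sqrt (qf V Complex.I v) := by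
    intro v i
    have h1 : v = S *ᵥ (S⁻¹ *ᵥ v) := by
      rw [Matrix.mulVec_mulVec, hSi, Matrix.one_mulVec]
    have h2 : v i = ∑ a, S i a * (S⁻¹ *ᵥ v) a := congrFun h1 i
    rw [h2]
    refine (norm_sum_le _ _).trans (Finset.sum_le_sum fun a _ => ?_)
    rw [norm_mul]
    refine mul_le_mul_of_nonneg_left ?_ (norm_nonneg _)
    refine Real.le_sqrt_of_sq_le ?_
    rw [qf_adapted V hI hS, ← Complex.normSq_eq_norm_sq]
    exact Finset.single_le_sum (f := fun a => Complex.normSq ((S⁻¹ *ᵥ v) a))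
      (fun a _ => Complex.normSq_nonneg _) (Finset.mem_univ a)
  obtain ⟨N, hN⟩ : ∃ N : ℤ, ∀ i j : Fin n,
      ∑ a, ‖S i a‖ * Real.sqrt (qf V Complex.I (Pi.single j 1)) ≤ N := by
    have h3 : ∀ i j : Fin n, ∑ a, ‖S i a‖ * Real.sqrt (qf V Complex.I (Pi.single j 1)) ≤
        ∑ i, ∑ j, ∑ a, ‖S i a‖ * Real.sqrt (qf V Complex.I (Pi.single j 1)) := by
      intro i j
      have h4 : ∀ i j : Fin n,
          0 ≤ ∑ a, ‖S i a‖ * Real.sqrt (qf V Complex.I (Pi.single j 1)) := fun i j =>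
        Finset.sum_nonneg fun a _ => mul_nonneg (norm_nonneg _) (Real.sqrt_nonneg _)
      refine (Finset.single_le_sum (f := fun j =>
        ∑ a, ‖S i a‖ * Real.sqrt (qf V Complex.I (Pi.single j 1))) (fun j _ => h4 i j)
        (Finset.mem_univ j)).trans ?_
      exact Finset.single_le_sum (f := fun i => ∑ j,
        ∑ a, ‖S i a‖ * Real.sqrt (qf V Complex.I (Pi.single j 1)))
        (fun i _ => Finset.sum_nonneg fun j _ => h4 i j) (Finset.mem_univ i)
    exact ⟨⌈∑ i, ∑ j, ∑ a, ‖S i a‖ * Real.sqrt (qf V Complex.I (Pi.single j 1))⌉,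
      fun i j => (h3 i j).trans (Int.le_ceil _)⟩
  have hent : ∀ (g : V.grp) (i j : Fin n),
      (V.rho g : Matrix (Fin n) (Fin n) ℤ) i j ∈ Set.Icc (-N) N := by
    intro g i j
    have h5 := hb (im (V.rho g : Matrix (Fin n) (Fin n) ℤ) *ᵥ Pi.single j 1) i
    rw [hq g, Matrix.mulVec_single_one] at h5
    have h6 : ‖(((V.rho g : Matrix (Fin n) (Fin n) ℤ) i j : ℤ) : ℂ)‖ ≤ N := h5.trans (hN i j)
    rw [Complex.norm_intCast] at h6
    have h7 : |(V.rho g : Matrix (Fin n) (Fin n) ℤ) i j| ≤ N := by exact_mod_cast h6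
    exact abs_le.1 h7
  obtain ⟨a, b, hab, heq⟩ := Finite.exists_ne_map_eq_of_infinite
    (fun k : ℕ => fun i j : Fin n =>
      (⟨(V.rho (g ^ k) : Matrix (Fin n) (Fin n) ℤ) i j, hent (g ^ k) i j⟩ : Set.Icc (-N) N))
  have hpow : V.rho g ^ a = V.rho g ^ b := by
    rw [← map_pow, ← map_pow]
    refine Units.ext ?_
    ext i j
    have h8 := congrFun (congrFun heq i) j
    exact congrArg Subtype.val h8
  rcases lt_or_gt_of_ne hab with hlt | hlt
  · refine ⟨b - a, by omega, ?_⟩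
    have h9 : V.rho g ^ a * V.rho g ^ (b - a) = V.rho g ^ a := by
      rw [← pow_add, Nat.add_sub_cancel' hlt.le]
      exact hpow.symm
    exact mul_eq_left.1 h9
  · refine ⟨a - b, by omega, ?_⟩
    have h9 : V.rho g ^ b * V.rho g ^ (a - b) = V.rho g ^ b := by
      rw [← pow_add, Nat.add_sub_cancel' hlt.le]
      exact hpow
    exact mul_eq_left.1 h9

theorem dom_case {n : ℕ} (V : PolVHS n)
    (h : ∀ z w : ℂ, 0 < z.im → 0 < w.im → ∀ p, V.F p z = V.F p w) (z₀ : ℂ)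
    (hz₀ : 0 < z₀.im) (H : ℝ) (hcm : IsCMc V z₀ H) {z : ℂ} (hz : 0 < z.im)
    (X : Matrix (Fin n) (Fin n) ℚ) (hX : X ∈ genericMT V) :
    cm X ∈ FEnd (fun p => V.F p z) 0 := by
  obtain ⟨A, hA, hst, -⟩ := hcm
  have hF : ∀ w : ℂ, 0 < w.im → (fun p => V.F p w) = fun p => V.F p z₀ := fun w hw =>
    funext fun p => h w z₀ hw hz₀ p
  obtain ⟨c, hcc, -, hJc, hbr⟩ := exists_cA V z₀ hz₀ A hA hst ⊥ (by
    intro Y hY
    rw [Submodule.mem_bot] at hY
    subst hY
    have h1 : br (JV V z₀) (cm (0 : Matrix (Fin n) (Fin n) ℚ)) = 0 := by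
      have h2 : cm (0 : Matrix (Fin n) (Fin n) ℚ) = 0 := by
        ext i j
        simp [cm]
      unfold br
      rw [h2, Matrix.mul_zero, Matrix.zero_mul, sub_zero]
    rw [h1]
    exact Submodule.zero_mem _)
  have hle : genericMT V ≤ c := by
    refine sInf_le ⟨?_, ?_⟩
    · intro Y hY Z hZ
      rw [hcc Y hY Z hZ, sub_self]
      exact c.zero_mem
    · intro w hw μ hμ
      have h3 : IsGr V.wt (fun p => V.F p z₀) μ := by
        have h4 : IsGr V.wt (fun p => V.F p w) μ := hμ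
        rw [hF w hw] at h4
        exact h4
      rw [gr_unique (V.phs z₀ hz₀) h3 (JV_gr V hz₀)]
      exact hJc
  rw [hF z hz]
  exact FEnd0_of_comm (V.phs z₀ hz₀) (JV_gr V hz₀) (cm X) (hbr X (hle hX))

theorem curve_of_type {n : ℕ} (V : PolVHS n) (h : IsShimuraType V) (z₀ : ℂ)
    (hz₀ : 0 < z₀.im) (H : ℝ) (hcm : IsCMc V z₀ H) : IsShimuraCurve V where
  grading := h.grading
  lie := h.lie
  sv1 := h.sv1
  dim := h.dim
  dom := fun hc z hz X hX p x hx => by
    have h1 := dom_case V hc z₀ hz₀ H hcm hz X hX p x hx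
    simpa using h1

theorem curve_of_inf {n : ℕ} (V : PolVHS n) (h : IsShimuraType V) (T : V.grp)
    (hinf : ∀ k : ℕ, 0 < k → V.rho T ^ k ≠ 1) : IsShimuraCurve V where
  grading := h.grading
  lie := h.lie
  sv1 := h.sv1
  dim := h.dim
  dom := fun hc => by
    obtain ⟨k, hk, h1⟩ := finite_order_of_const V hc T
    exact absurd h1 (hinf k hk)

end MP2794d1.AE
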