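import Pool.Agent.Lib.MP_2794d1_ag.AC.C6
import Pool.Agent.Lib.MP_2794d1_ag.AC.Q6
import Pool.Agent.Lib.MP_2794d1_ag.AC.G15
import Pool.Agent.Lib.MP_2794d1_ag.AE.E10
import Pool.Agent.Lib.MP_2794d1_ag.AC.H1
import Pool.Agent.Lib.MP_2794d1_ag.PG.G7
import Pool.Agent.Lib.MP_2794d1_ag.QU.Q5
import Pool.Agent.Lib.MP_2794d1_ag.S01
import Pool.Agent.Lib.MP_2794d1_ag.B07
import Pool.Agent.Lib.MP_2794d1_ag.F07

/-!
Main: the dichotomy for every curve, with exponent 5 and dominance (the count with exponent 3 for finite local monodromies is AC/Q6). If some cusp `σ`, `T` has local monodromy of infinite order: PG/G7 `main_global_inf`,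
AC/H1 `line_type`, `curve_of_inf`. Otherwise every `UCusp (V.pull τ)` has `N = 0`: its `T` is `τ⁻¹ T' τ` with `T' ∈ V.grp` satisfying
`mob T' (mob τ w) = mob τ (w + 1)`, so `ρ(T')^k = 1`, `k ≥ 1`; `exp (k N) = 1` (`uexp (cm N) k = im (ρ T) ^ k = 1`), `N` nilpotent, so `N = 0` (`uexp N k - 1 = k N (1 + ..)`,
unipotent of finite order; G02/`eq_zero_of_uexp_eq_one`-type lemma, or polynomials: `uexp (cm N) (k m) = 1` for all `m : ℕ`, a polynomial in `m`, so constant,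
derivative at `0` is `N`).
-/

namespace MP2794d1.AE

open Matrix Complex Filter Topology MP2794d1.PC MP2794d1.AC MP2794d1.PG

theorem Main_uexp_one {n : ℕ} (N : Matrix (Fin n) (Fin n) ℚ) (hN : (cm N) ^ n = 0) (k : ℕ)
    (hk : 0 < k) (h : uexp (cm N) (k : ℂ) = 1) : N = 0 := by
  have h1 : ∀ m : ℕ, uexp (cm N) ((k : ℂ) * (m : ℂ)) = 1 := by
    intro m
    induction m with
    | zero => rw [Nat.cast_zero, mul_zero, uexp_zero]
    | succ m ih => rw [Nat.cast_succ, mul_add, mul_one, uexp_add _ hN, ih, h, one_mul]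
  obtain ⟨P, hP⟩ := uexp_poly N
  have h2 : ∀ s : ℂ, uexp (cm N) s = 1 := by
    intro s
    ext i j
    have h3 : ∀ t : ℂ, uexp (cm N) t i j = Polynomial.aeval t (P i j) := by
      intro t
      rw [hP t]
      rfl
    obtain ⟨q, hq⟩ : ∃ q : Polynomial ℂ, q = (P i j).map (algebraMap ℚ ℂ) -
      Polynomial.C ((1 : Matrix (Fin n) (Fin n) ℂ) i j) := ⟨_, rfl⟩
    have h4 : ∀ t : ℂ, q.eval t = uexp (cm N) t i j - (1 : Matrix (Fin n) (Fin n) ℂ) i j := by
      intro t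
      rw [hq, Polynomial.eval_sub, Polynomial.eval_C, h3, Polynomial.eval_map, Polynomial.aeval_def]
    have h5 : q = 0 := by
      refine Polynomial.eq_zero_of_infinite_isRoot q ?_
      refine Set.infinite_of_injective_forall_mem (f := fun m : ℕ => (k : ℂ) * (m : ℂ)) ?_ ?_
      · intro a b hab
        have hk0 : (k : ℂ) ≠ 0 := Nat.cast_ne_zero.2 hk.ne'
        exact Nat.cast_injective (mul_left_cancel₀ hk0 hab)
      · intro m
        show q.eval _ = 0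
        rw [h4, h1 m, sub_self]
    have h6 := h4 s
    rw [h5, Polynomial.eval_zero] at h6
    exact sub_eq_zero.1 h6.symm
  have h7 : cm N = 0 := by
    ext i j
    have h8 := uexp_deriv (cm N) hN 0 i j
    rw [uexp_zero, mul_one] at h8
    have h9 : HasDerivAt (fun t => uexp (cm N) t i j) 0 0 := by
      have h10 : (fun t => uexp (cm N) t i j) = fun _ => (1 : Matrix (Fin n) (Fin n) ℂ) i j := by
        funext t
        rw [h2 t]
      rw [h10]
      exact hasDerivAt_const _ _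
    exact h8.unique h9
  ext i j
  have h10 : ((N i j : ℚ) : ℂ) = 0 := congrFun (congrFun h7 i) j
  exact_mod_cast h10

theorem N_zero_of_finite {n : ℕ} (V : PolVHS n)
    (hfin : ∀ (σ : Matrix.SpecialLinearGroup (Fin 2) ℝ) (T : V.grp),
      (∀ w : ℂ, 0 < w.im → mob T (mob σ w) = mob σ (w + 1)) → ∃ k : ℕ, 0 < k ∧ V.rho T ^ k = 1)
    (τ : Matrix.SpecialLinearGroup (Fin 2) ℝ) (c : UCusp (V.pull τ)) : c.N = 0 := by
  have hN : (cm c.N) ^ n = 0 := cm_pow c.N c.nil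
  obtain ⟨k, hk, hk2⟩ := hfin τ ⟨τ * c.T.1 * τ⁻¹, c.T.2⟩ (by
    intro w hw
    show mob (τ * c.T.1 * τ⁻¹) (mob τ w) = mob τ (w + 1)
    rw [mob_mob _ _ _ hw, ← c.T_eq w, mob_mob _ _ _ hw]
    congr 1
    group)
  have h1 : (V.pull τ).rho c.T ^ k = 1 := hk2
  have h2 : ∀ m : ℕ, im (((V.pull τ).rho c.T ^ m : Matrix.GeneralLinearGroup (Fin n) ℤ) :
      Matrix (Fin n) (Fin n) ℤ) = uexp (cm c.N) (m : ℂ) := by
    intro m
    induction m with
    | zero =>
      rw [pow_zero, Nat.cast_zero, uexp_zero]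
      show im (1 : Matrix (Fin n) (Fin n) ℤ) = 1
      unfold im
      rw [Matrix.map_one _ Int.cast_zero Int.cast_one]
    | succ m ih =>
      rw [pow_succ, Units.val_mul, S01_im_mul, ih, c.exp_eq, Nat.cast_succ, uexp_add _ hN]
  have h3 := h2 k
  rw [h1] at h3
  refine Main_uexp_one c.N hN k hk ?_
  rw [← h3]
  show im (1 : Matrix (Fin n) (Fin n) ℤ) = 1
  unfold im
  rw [Matrix.map_one _ Int.cast_zero Int.cast_one]

theorem log_pow_three_le {h C : ℝ} (hh : 2 ≤ h) {x : ℝ} (hx : x ≤ C * Real.log h ^ 3) :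
    x ≤ (|C| / Real.log 2 ^ 2) * Real.log h ^ 5 := by
  have h2 : 0 < Real.log 2 := Real.log_pos one_lt_two
  have h3 : Real.log 2 ≤ Real.log h := Real.log_le_log two_pos hh
  have h4 : 0 < Real.log h := h2.trans_le h3
  have h5 : Real.log 2 ^ 2 ≤ Real.log h ^ 2 := pow_le_pow_left₀ h2.le h3 2
  have h6 : C * Real.log h ^ 3 ≤ |C| * Real.log h ^ 3 :=
    mul_le_mul_of_nonneg_right (le_abs_self C) (by positivity)
  have h7 : |C| * Real.log h ^ 3 * Real.log 2 ^ 2 ≤ |C| * Real.log h ^ 3 * Real.log h ^ 2 :=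
    mul_le_mul_of_nonneg_left h5 (by positivity)
  have h8 : |C| * Real.log h ^ 3 ≤ (|C| / Real.log 2 ^ 2) * Real.log h ^ 5 := by
    rw [div_mul_eq_mul_div, le_div_iff₀ (by positivity)]
    calc |C| * Real.log h ^ 3 * Real.log 2 ^ 2 ≤ |C| * Real.log h ^ 3 * Real.log h ^ 2 := h7
      _ = |C| * Real.log h ^ 5 := by ring
  linarith

theorem all_curves {n : ℕ} (V : PolVHS n) (hΔ : FiniteType V.grp) :
    IsShimuraCurve V ∨
    ∃ C : ℝ, ∀ h : ℝ, 2 ≤ h → ∃ S : Finset ℂ, (S.card : ℝ) ≤ C * Real.log h ^ 5 ∧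
      ∀ z : ℂ, 0 < z.im → IsCMc V z h → ∃ g : V.grp, ∃ w ∈ S, z = mob g w := by
  classical
  by_cases hinf : ∃ (σ : Matrix.SpecialLinearGroup (Fin 2) ℝ) (T : V.grp),
      (∀ w : ℂ, 0 < w.im → mob T (mob σ w) = mob σ (w + 1)) ∧
      ∀ k : ℕ, 0 < k → V.rho T ^ k ≠ 1
  · obtain ⟨σ, T, hT, hk⟩ := hinf
    rcases main_global_inf V hΔ σ T hT hk with ⟨N, hN⟩ | h
    · exact Or.inl (curve_of_inf V (line_type V N hN) T hk)
    · exact Or.inr h
  · have hfin : ∀ (σ : Matrix.SpecialLinearGroup (Fin 2) ℝ) (T : V.grp),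
        (∀ w : ℂ, 0 < w.im → mob T (mob σ w) = mob σ (w + 1)) →
        ∃ k : ℕ, 0 < k ∧ V.rho T ^ k = 1 := by
      intro σ T hT
      by_contra hcon
      push Not at hcon
      exact hinf ⟨σ, T, hT, hcon⟩
    by_cases hcm : ∃ (z₀ : ℂ) (H : ℝ), 0 < z₀.im ∧ IsCMc V z₀ H
    swap
    · right
      refine ⟨0, fun h hh => ⟨∅, by simp, fun z hz hz2 => ?_⟩⟩
      exact absurd ⟨z, h, hz, hz2⟩ hcm
    obtain ⟨z₀, H, hz₀, h0⟩ := hcm
    by_cases hR : ∃ α : Fin 3 → Ix V, ∀ k : ℕ, 1 ≤ k → ∀ c : Fin (k + 1) → Fin (k + 1) → ℤ,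
        (∃ i j, c i j ≠ 0) → ∃ z : ℂ, 0 < z.im ∧ ∃ v, PLV V z v ∧ hp k c (v ∘ α) ≠ 0
    · obtain ⟨α, hα⟩ := hR
      right
      obtain ⟨N, ⟨a⟩⟩ := exists_atlas V hΔ (N_zero_of_finite V hfin)
      obtain ⟨C, hC⟩ := atlas_count3 V a α hα
      refine ⟨|C| / Real.log 2 ^ 2, fun h hh => ?_⟩
      obtain ⟨S, h1, h2⟩ := hC h hh
      exact ⟨S, log_pow_three_le hh h1, h2⟩
    · left
      have hrel : Rel V := by
        intro α
        by_contra hcon
        push Not at hcon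
        exact hR ⟨α, fun k hk c hc => hcon k hk c hc⟩
      exact curve_of_type V (case_rel V hΔ hrel z₀ hz₀ H h0) z₀ hz₀ H h0

end MP2794d1.AE
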